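import Mathlib

/-!
Degrees in `k((1/T))`.  The field `K = k((1/T))` is `LaurentSeries k` with the variable `X = 1/T`;
`k[T]` embeds by `iot` (`T ↦ X⁻¹`).
-/

open Polynomial

namespace Pool.Agent.Helper20.FR

variable {k : Type*} [Field k]

/-- the embedding `k[T] → k((1/T))`, `T ↦ X⁻¹`. -/
noncomputable def iot : k[X] →+* LaurentSeries k :=
  Polynomial.eval₂RingHom (HahnSeries.C) (HahnSeries.single (-1 : ℤ) (1 : k))

/-- `T ^ n` as an element of `K`, `n : ℤ`. -/
noncomputable def Tz (n : ℤ) : LaurentSeries k := HahnSeries.single (-n) (1 : k)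

/-- all coefficients of `z` at `T ^ m`, `m > d`, vanish (`deg z ≤ d`). -/
def DLe (z : LaurentSeries k) (d : ℝ) : Prop := ∀ n : ℤ, (n : ℝ) < -d → z.coeff n = 0

/-- the degree of a nonzero `z`. -/
noncomputable def dg (z : LaurentSeries k) : ℤ := - z.order

lemma iot_C (a : k) : iot (Polynomial.C a) = HahnSeries.C a := by
  simp [iot]

lemma iot_X_pow (m : ℕ) : iot ((X : k[X]) ^ m) = Tz (m : ℤ) := by
  simp only [iot, Tz, map_pow, coe_eval₂RingHom, eval₂_X]
  rw [HahnSeries.single_pow]
  simp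

lemma iot_monomial (m : ℕ) (a : k) : iot (monomial m a) = HahnSeries.single (-(m:ℤ)) a := by
  rw [← C_mul_X_pow_eq_monomial, map_mul, iot_C, iot_X_pow, Tz, HahnSeries.C_apply,
    HahnSeries.single_mul_single]
  simp

lemma iot_coeff_neg (f : k[X]) (m : ℕ) : (iot f).coeff (-(m:ℤ)) = f.coeff m := by
  induction f using Polynomial.induction_on' with
  | add p q hp hq => simp [hp, hq]
  | monomial n a =>
    rw [iot_monomial, coeff_monomial]
    by_cases h : n = m
    · subst h; simp
    · rw [HahnSeries.coeff_single_of_ne (by omega), if_neg h]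

lemma iot_coeff_pos (f : k[X]) {n : ℤ} (hn : 0 < n) : (iot f).coeff n = 0 := by
  induction f using Polynomial.induction_on' with
  | add p q hp hq => simp [hp, hq]
  | monomial m a =>
    rw [iot_monomial, HahnSeries.coeff_single_of_ne (by omega)]

lemma iot_injective : Function.Injective (iot : k[X] →+* LaurentSeries k) := by
  intro f g h
  ext m
  rw [← iot_coeff_neg, ← iot_coeff_neg, h]

lemma iot_eq_zero {f : k[X]} : iot f = 0 ↔ f = 0 := map_eq_zero_iff _ iot_injective

lemma DLe_iff {z : LaurentSeries k} (hz : z ≠ 0) {d : ℝ} : DLe z d ↔ (dg z : ℝ) ≤ d := by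
  constructor
  · intro h
    by_contra hlt
    push Not at hlt
    have h1 : ((z.order : ℤ) : ℝ) < -d := by
      simp only [dg, Int.cast_neg] at hlt
      linarith
    have h2 := h _ h1
    exact (HahnSeries.coeff_order_eq_zero.not.mpr hz) h2
  · intro h n hn
    apply HahnSeries.coeff_eq_zero_of_lt_order
    have : (n : ℝ) < (z.order : ℤ) := by
      simp only [dg, Int.cast_neg] at h
      linarith
    exact_mod_cast this

lemma DLe_zero (d : ℝ) : DLe (0 : LaurentSeries k) d := fun _ _ => by simp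

lemma DLe_self (z : LaurentSeries k) : DLe z (dg z) := by
  by_cases hz : z = 0
  · subst hz; exact DLe_zero _
  · exact (DLe_iff hz).2 le_rfl

lemma DLe.mono {z : LaurentSeries k} {d e : ℝ} (h : DLe z d) (hde : d ≤ e) : DLe z e :=
  fun n hn => h n (by linarith)

lemma DLe.add {z w : LaurentSeries k} {d : ℝ} (h : DLe z d) (h' : DLe w d) : DLe (z + w) d :=
  fun n hn => by simp [h n hn, h' n hn]

lemma DLe.neg {z : LaurentSeries k} {d : ℝ} (h : DLe z d) : DLe (-z) d :=
  fun n hn => by simp [h n hn]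

lemma DLe.sub {z w : LaurentSeries k} {d : ℝ} (h : DLe z d) (h' : DLe w d) : DLe (z - w) d :=
  fun n hn => by simp [h n hn, h' n hn]

lemma DLe.sum {ι : Type*} (s : Finset ι) {f : ι → LaurentSeries k} {d : ℝ}
    (h : ∀ i ∈ s, DLe (f i) d) : DLe (∑ i ∈ s, f i) d := by
  classical
  induction s using Finset.induction_on with
  | empty => simpa using DLe_zero d
  | insert a s ha ih =>
    rw [Finset.sum_insert ha]
    exact (h a (by simp)).add (ih fun i hi => h i (by simp [hi]))

lemma dg_mul {z w : LaurentSeries k} (hz : z ≠ 0) (hw : w ≠ 0) : dg (z * w) = dg z + dg w := by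
  simp only [dg]
  rw [HahnSeries.order_mul hz hw]
  ring

lemma dg_pow (z : LaurentSeries k) (n : ℕ) : dg (z ^ n) = n * dg z := by
  simp [dg, HahnSeries.order_pow]

lemma dg_one : dg (1 : LaurentSeries k) = 0 := by simp [dg]

lemma dg_inv {z : LaurentSeries k} (hz : z ≠ 0) : dg z⁻¹ = - dg z := by
  have h := dg_mul hz (inv_ne_zero hz)
  rw [mul_inv_cancel₀ hz, dg_one] at h
  omega

lemma Tz_ne_zero (n : ℤ) : (Tz n : LaurentSeries k) ≠ 0 := by
  simp [Tz]

lemma dg_Tz (n : ℤ) : dg (Tz n : LaurentSeries k) = n := by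
  simp [dg, Tz, HahnSeries.order_single]

lemma Tz_add (m n : ℤ) : (Tz (m + n) : LaurentSeries k) = Tz m * Tz n := by
  simp only [Tz, HahnSeries.single_mul_single]
  congr 1
  · ring_nf
  · simp

lemma Tz_zero : (Tz 0 : LaurentSeries k) = 1 := by
  simp [Tz]

lemma Tz_mul_neg (n : ℤ) : (Tz n : LaurentSeries k) * Tz (-n) = 1 := by
  rw [← Tz_add]; simp [Tz_zero]

lemma Tz_pow (n : ℤ) (m : ℕ) : (Tz n : LaurentSeries k) ^ m = Tz (m * n) := by
  simp only [Tz, HahnSeries.single_pow]
  simp

lemma Tz_mul_coeff (n : ℤ) (z : LaurentSeries k) (m : ℤ) :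
    (Tz n * z).coeff m = z.coeff (m + n) := by
  have := HahnSeries.coeff_single_mul_add (r := (1 : k)) (x := z) (a := m + n) (b := -n)
  simp only [one_mul] at this
  rw [Tz, ← this]
  congr 1
  ring

lemma dg_iot {f : k[X]} (hf : f ≠ 0) : dg (iot f) = f.natDegree := by
  have h1 : iot f ≠ 0 := by rwa [Ne, iot_eq_zero]
  apply le_antisymm
  · have : DLe (iot f) (f.natDegree : ℝ) := by
      intro n hn
      rcases lt_or_ge 0 n with h | h
      · exact iot_coeff_pos f h
      · obtain ⟨m, rfl⟩ : ∃ m : ℕ, n = -(m:ℤ) := ⟨n.natAbs, by omega⟩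
        rw [iot_coeff_neg]
        apply coeff_eq_zero_of_natDegree_lt
        have : (f.natDegree : ℝ) < m := by push_cast at hn; linarith
        exact_mod_cast this
    have := (DLe_iff h1).1 this
    exact_mod_cast this
  · by_contra hlt
    push Not at hlt
    have : DLe (iot f) ((f.natDegree : ℝ) - 1) := by
      apply (DLe_self _).mono
      have : (dg (iot f) : ℝ) + 1 ≤ ((f.natDegree : ℤ) : ℝ) := by exact_mod_cast hlt
      push_cast at this
      linarith
    have h2 := this (-(f.natDegree : ℤ)) (by push_cast; linarith)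
    rw [iot_coeff_neg] at h2
    exact hf (leadingCoeff_eq_zero.1 h2)

lemma DLe_iot (f : k[X]) : DLe (iot f) (f.natDegree : ℝ) := by
  by_cases hf : f = 0
  · subst hf; simpa using DLe_zero _
  · apply (DLe_self _).mono
    rw [dg_iot hf]
    simp

lemma DLe_iot_iff {f : k[X]} (hf : f ≠ 0) {d : ℝ} : DLe (iot f) d ↔ (f.natDegree : ℝ) ≤ d := by
  rw [DLe_iff (by rwa [Ne, iot_eq_zero]), dg_iot hf]
  simp

lemma DLe.mul {z w : LaurentSeries k} {d e : ℝ} (h : DLe z d) (h' : DLe w e) :
    DLe (z * w) (d + e) := by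
  by_cases hz : z = 0
  · subst hz; simpa using DLe_zero _
  by_cases hw : w = 0
  · subst hw; simpa using DLe_zero _
  rw [DLe_iff (mul_ne_zero hz hw), dg_mul hz hw]
  have h1 := (DLe_iff hz).1 h
  have h2 := (DLe_iff hw).1 h'
  push_cast
  linarith

lemma DLe_one : DLe (1 : LaurentSeries k) 0 := by
  rw [DLe_iff one_ne_zero, dg_one]; simp

lemma DLe.pow {z : LaurentSeries k} {d : ℝ} (h : DLe z d) (n : ℕ) : DLe (z ^ n) (n * d) := by
  by_cases hz : z = 0
  · subst hz
    rcases Nat.eq_zero_or_pos n with rfl | hn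
    · simpa using DLe_one
    · rw [zero_pow (by omega)]; exact DLe_zero _
  rw [DLe_iff (pow_ne_zero _ hz), dg_pow]
  have h1 := (DLe_iff hz).1 h
  push_cast
  gcongr

lemma DLe_of_pow {z : LaurentSeries k} {d : ℝ} {n : ℕ} (hn : 0 < n) (h : DLe (z ^ n) (n * d)) :
    DLe z d := by
  by_cases hz : z = 0
  · subst hz; exact DLe_zero _
  rw [DLe_iff (pow_ne_zero _ hz), dg_pow] at h
  rw [DLe_iff hz]
  push_cast at h
  have : (0 : ℝ) < n := by exact_mod_cast hn
  exact le_of_mul_le_mul_left h this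

lemma DLe.prod {ι : Type*} (s : Finset ι) {f : ι → LaurentSeries k} {d : ι → ℝ}
    (h : ∀ i ∈ s, DLe (f i) (d i)) : DLe (∏ i ∈ s, f i) (∑ i ∈ s, d i) := by
  classical
  induction s using Finset.induction_on with
  | empty => simpa using DLe_one
  | insert a s ha ih =>
    rw [Finset.prod_insert ha, Finset.sum_insert ha]
    exact (h a (by simp)).mul (ih fun i hi => h i (by simp [hi]))

/-- two elements at distance of degree `< dg z` have the same degree -/
lemma dg_eq_of_sub {z w : LaurentSeries k} (hz : z ≠ 0) {d : ℝ} (h : DLe (z - w) d)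
    (hd : d < dg z) : w ≠ 0 ∧ dg w = dg z := by
  have hw : w ≠ 0 := by
    rintro rfl
    rw [sub_zero, DLe_iff hz] at h
    linarith
  refine ⟨hw, le_antisymm ?_ ?_⟩
  · have h1 : DLe w (dg z) := by
      have : w = z - (z - w) := by ring
      rw [this]
      exact (DLe_self z).sub (h.mono hd.le)
    have := (DLe_iff hw).1 h1
    exact_mod_cast this
  · by_contra hlt
    push Not at hlt
    have h1 : DLe z (max d (dg w)) := by
      have : z = (z - w) + w := by ring
      rw [this]
      exact (h.mono (le_max_left _ _)).add ((DLe_self w).mono (le_max_right _ _))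
    have h2 := (DLe_iff hz).1 h1
    have h3 : (dg w : ℝ) < dg z := by exact_mod_cast hlt
    rcases le_max_iff.1 h2 with h4 | h4 <;> linarith

section vec

variable {F F' : Type*}

/-- `deg ≤ d` for a vector -/
def VLe (v : F → LaurentSeries k) (d : ℝ) : Prop := ∀ f, DLe (v f) d

/-- the maximal degree of the coordinates of a nonzero vector -/
noncomputable def vdeg (v : F → LaurentSeries k) : ℤ := sSup ((fun f => dg (v f)) '' {f | v f ≠ 0})

lemma VLe_iff [Finite F] {v : F → LaurentSeries k} (hv : v ≠ 0) {d : ℝ} :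
    VLe v d ↔ (vdeg v : ℝ) ≤ d := by
  have hne : ((fun f => dg (v f)) '' {f | v f ≠ 0}).Nonempty := by
    obtain ⟨f, hf⟩ := Function.ne_iff.1 hv
    exact ⟨_, f, hf, rfl⟩
  have hfin : ((fun f => dg (v f)) '' {f | v f ≠ 0}).Finite := Set.toFinite _
  constructor
  · intro h
    obtain ⟨f, hf, hf'⟩ := hne.csSup_mem hfin
    have h1 := (DLe_iff hf).1 (h f)
    have h2 : dg (v f) = vdeg v := hf'
    rw [← h2]
    exact h1
  · intro h f
    by_cases hf : v f = 0
    · rw [hf]; exact DLe_zero _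
    rw [DLe_iff hf]
    have : dg (v f) ≤ vdeg v := le_csSup hfin.bddAbove ⟨f, hf, rfl⟩
    have : (dg (v f) : ℝ) ≤ vdeg v := by exact_mod_cast this
    linarith

lemma exists_dg_eq_vdeg [Finite F] {v : F → LaurentSeries k} (hv : v ≠ 0) :
    ∃ f, v f ≠ 0 ∧ dg (v f) = vdeg v := by
  have hne : ((fun f => dg (v f)) '' {f | v f ≠ 0}).Nonempty := by
    obtain ⟨f, hf⟩ := Function.ne_iff.1 hv
    exact ⟨_, f, hf, rfl⟩
  have hfin : ((fun f => dg (v f)) '' {f | v f ≠ 0}).Finite := Set.toFinite _
  obtain ⟨f, hf, hf'⟩ := hne.csSup_mem hfin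
  exact ⟨f, hf, hf'⟩

lemma VLe_self [Finite F] (v : F → LaurentSeries k) : VLe v (vdeg v) := by
  by_cases hv : v = 0
  · subst hv; intro f; exact DLe_zero _
  · exact (VLe_iff hv).2 le_rfl

lemma VLe.mono {v : F → LaurentSeries k} {d e : ℝ} (h : VLe v d) (hde : d ≤ e) : VLe v e :=
  fun f => (h f).mono hde

lemma VLe.add {v w : F → LaurentSeries k} {d : ℝ} (h : VLe v d) (h' : VLe w d) : VLe (v + w) d :=
  fun f => (h f).add (h' f)

lemma VLe.sub {v w : F → LaurentSeries k} {d : ℝ} (h : VLe v d) (h' : VLe w d) : VLe (v - w) d :=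
  fun f => (h f).sub (h' f)

/-- entrywise degree bound for matrices -/
def MLe (B : Matrix F F' (LaurentSeries k)) (b : ℝ) : Prop := ∀ i j, DLe (B i j) b

lemma exists_MLe [Finite F] [Finite F'] (B : Matrix F F' (LaurentSeries k)) :
    ∃ b : ℕ, MLe B b := by
  have h : ∀ i j, ∃ b : ℕ, DLe (B i j) b := by
    intro i j
    refine ⟨(dg (B i j)).toNat, (DLe_self _).mono ?_⟩
    exact_mod_cast Int.self_le_toNat _
  choose b hb using h
  cases nonempty_fintype F
  cases nonempty_fintype F'
  refine ⟨Finset.univ.sup fun i => Finset.univ.sup (b i), fun i j => (hb i j).mono ?_⟩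
  have h1 : b i j ≤ Finset.univ.sup (b i) := Finset.le_sup (f := b i) (Finset.mem_univ j)
  have h2 : Finset.univ.sup (b i) ≤ Finset.univ.sup fun i => Finset.univ.sup (b i) :=
    Finset.le_sup (f := fun i => Finset.univ.sup (b i)) (Finset.mem_univ i)
  exact_mod_cast h1.trans h2

lemma VLe.mulVec [Fintype F'] {B : Matrix F F' (LaurentSeries k)} {b d : ℝ} (hB : MLe B b)
    {v : F' → LaurentSeries k} (hv : VLe v d) : VLe (B.mulVec v) (b + d) := by
  intro f
  simp only [Matrix.mulVec, dotProduct]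
  exact DLe.sum _ fun j _ => (hB f j).mul (hv j)

/-- a determinant with row bounds -/
lemma DLe_det [Fintype F] [DecidableEq F] {M : Matrix F F (LaurentSeries k)} {c : F → ℝ}
    (h : ∀ a b, DLe (M a b) (c a)) : DLe M.det (∑ a, c a) := by
  rw [Matrix.det_apply]
  refine DLe.sum _ fun σ _ => ?_
  have h1 : DLe (∏ i, M (σ i) i) (∑ a, c a) := by
    have : ∑ a, c a = ∑ i, c (σ i) := (Equiv.sum_comp σ c).symm
    rw [this]
    exact DLe.prod _ fun i _ => h _ _
  rcases Int.units_eq_one_or (Equiv.Perm.sign σ) with h2 | h2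
  · rw [h2, one_smul]; exact h1
  · rw [h2, Units.neg_smul, one_smul]; exact h1.neg

end vec

section frob

variable {p : ℕ} [Fact p.Prime] [CharP k p]

instance : CharP (LaurentSeries k) p :=
  charP_of_injective_ringHom (f := (HahnSeries.C : k →+* LaurentSeries k))
    HahnSeries.C_injective p

lemma sub_pow_r (s : ℕ) (x y : LaurentSeries k) : (x - y) ^ p ^ s = x ^ p ^ s - y ^ p ^ s :=
  sub_pow_char_pow x y s

end frob

end Pool.Agent.Helper20.FR
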