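import Pool.Agent.Helper20.FR.Spec

open Polynomial Filter

namespace Pool.Agent.Helper20.FR

universe u

/-- the polynomial part -/
lemma exists_polyPart {k : Type*} [Field k] (z : LaurentSeries k) :
    ∃ h : k[X], DLe (z - iot h) (-1) := by
  classical
  set M : ℕ := (-z.order).toNat + 1 with hM
  refine ⟨∑ m ∈ Finset.range M, monomial m (z.coeff (-(m : ℤ))), ?_⟩
  intro n hn
  have hn' : n ≤ 0 := by
    have : (n : ℝ) < 1 := by simpa using hn
    have : n < 1 := by exact_mod_cast this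
    omega
  obtain ⟨m, rfl⟩ : ∃ m : ℕ, n = -(m : ℤ) := ⟨n.natAbs, by omega⟩
  rw [HahnSeries.coeff_sub, iot_coeff_neg, finsetSum_coeff]
  simp only [coeff_monomial]
  rw [Finset.sum_ite_eq' (Finset.range M) m]
  split_ifs with h
  · simp
  · rw [sub_zero]
    apply HahnSeries.coeff_eq_zero_of_lt_order
    simp only [Finset.mem_range, not_lt] at h
    omega

lemma pth_root {k : Type u} [Field k] (p : ℕ) [Fact p.Prime] [CharP k p] (s : ℕ)
    (η : LaurentSeries k) (g : k[X]) (h : η ^ p ^ s = iot g) : ∃ h : k[X], η = iot h := by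
  obtain ⟨h₀, hh⟩ := exists_polyPart η
  refine ⟨h₀, ?_⟩
  have hp : 0 < p ^ s := pow_pos (Fact.out : p.Prime).pos s
  have h1 : (η - iot h₀) ^ p ^ s = iot (g - h₀ ^ p ^ s) := by
    rw [sub_pow_r (p := p), h, map_sub, map_pow]
  have h2 := hh.pow (p ^ s)
  rw [h1] at h2
  have h3 : g - h₀ ^ p ^ s = 0 := by
    by_contra hne
    rw [DLe_iot_iff hne] at h2
    have h4 : (0 : ℝ) ≤ ((g - h₀ ^ p ^ s).natDegree : ℝ) := Nat.cast_nonneg _
    have h5 : (0 : ℝ) < ((p ^ s : ℕ) : ℝ) := by exact_mod_cast hp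
    linarith
  rw [h3, map_zero] at h1
  have h4 : η - iot h₀ = 0 := pow_eq_zero_iff hp.ne' |>.1 h1
  exact sub_eq_zero.1 h4

lemma irr_pow {k : Type u} [Field k] (p : ℕ) [Fact p.Prime] [CharP k p] (s : ℕ)
    (ξ : LaurentSeries k) (hirr : ∀ a b : k[X], b ≠ 0 → iot b * ξ ≠ iot a) (a b : k[X])
    (hb : b ≠ 0) : iot b * ξ ^ p ^ s ≠ iot a := by
  intro h
  have hp : 0 < p ^ s := pow_pos (Fact.out : p.Prime).pos s
  have h1 : (iot b * ξ) ^ p ^ s = iot (b ^ (p ^ s - 1) * a) := by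
    rw [map_mul, ← h, map_pow, mul_pow, ← mul_assoc, ← pow_succ]
    congr 2
    omega
  obtain ⟨g, hg⟩ := pth_root p s _ _ h1
  exact hirr g b hb hg

lemma ev_mul_X {k : Type u} [Field k] (ξ : LaurentSeries k) (f : k[X][X]) (m : ℕ) :
    ev ξ (f * Polynomial.X ^ m) = ev ξ f * ξ ^ m := by
  simp [ev, eval₂_mul, eval₂_pow]

lemma cubic_rel {k : Type u} [Field k] (ξ : LaurentSeries k) (f : k[X][X]) (hf : f ≠ 0)
    (hfe : ev ξ f = 0) (hd : f.natDegree ≤ 3) : ∃ (c : k[X]) (w : Fin 3 → k[X]), c ≠ 0 ∧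
      iot c * ξ ^ 3 = ∑ l : Fin 3, iot (w l) * ξ ^ (l : ℕ) := by
  set g := f * Polynomial.X ^ (3 - f.natDegree) with hg
  have hge : ev ξ g = 0 := by rw [hg, ev_mul_X, hfe, zero_mul]
  have hgd : g.natDegree = 3 := by
    rw [hg, natDegree_mul hf (pow_ne_zero _ X_ne_zero), natDegree_X_pow]; omega
  have hg0 : g ≠ 0 := by
    intro h; rw [h] at hgd; simp at hgd
  refine ⟨g.coeff 3, fun l => -g.coeff (l : ℕ), ?_, ?_⟩
  · rw [← hgd]; exact leadingCoeff_ne_zero.2 hg0
  · have h1 : ev ξ g = ∑ i ∈ Finset.range 4, iot (g.coeff i) * ξ ^ i := by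
      rw [ev, eval₂_eq_sum_range, hgd]
    rw [hge] at h1
    simp only [Finset.sum_range_succ, Finset.sum_range_zero, zero_add] at h1
    simp only [Fin.sum_univ_three, map_neg]
    simp only [Fin.val_zero, Fin.val_one, Fin.val_two]
    linear_combination -h1

lemma pow_rel {k : Type u} [Field k] (ξ : LaurentSeries k) (c₀ : k[X]) (w : Fin 3 → k[X])
    (hc₀ : c₀ ≠ 0) (hw : iot c₀ * ξ ^ 3 = ∑ l : Fin 3, iot (w l) * ξ ^ (l : ℕ)) (m : ℕ) :
    ∃ (c : k[X]) (v : Fin 3 → k[X]), c ≠ 0 ∧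
      iot c * ξ ^ m = ∑ l : Fin 3, iot (v l) * ξ ^ (l : ℕ) := by
  induction m with
  | zero => exact ⟨1, ![1, 0, 0], one_ne_zero, by simp [Fin.sum_univ_three]⟩
  | succ m ih =>
    obtain ⟨c, v, hc, hv⟩ := ih
    refine ⟨c * c₀, ![v 2 * w 0, c₀ * v 0 + v 2 * w 1, c₀ * v 1 + v 2 * w 2],
      mul_ne_zero hc hc₀, ?_⟩
    simp only [Fin.sum_univ_three, Fin.val_zero, Fin.val_one, Fin.val_two, Matrix.cons_val_zero,
      Matrix.cons_val_one, Matrix.cons_val, map_mul, map_add] at hv hw ⊢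
    linear_combination (iot c₀ * ξ) * hv + iot (v 2) * hw

theorem low_deg {k : Type u} [Field k] (p : ℕ) [Fact p.Prime] [CharP k p] (s : ℕ)
    (ξ : LaurentSeries k) (hirr : ∀ a b : k[X], b ≠ 0 → iot b * ξ ≠ iot a)
    (f : k[X][X]) (hf : f ≠ 0) (hfe : ev ξ f = 0) (hd : f.natDegree ≤ 3) : HQ (p ^ s) ξ := by
  classical
  obtain ⟨c₀, w, hc₀, hw⟩ := cubic_rel ξ f hf hfe hd
  set r := p ^ s with hr
  let e : Fin 4 → ℕ := ![0, 1, r, r + 1]
  have h1 := fun i => pow_rel ξ c₀ w hc₀ hw (e i)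
  choose c v hc hv using h1
  let M : Matrix (Fin 4) (Fin 4) k[X] :=
    Matrix.of fun l i => if h : (l : ℕ) < 3 then v i ⟨l, h⟩ else 0
  have hM : M.det = 0 := Matrix.det_eq_zero_of_row_eq_zero 3 fun j => by simp [M]
  obtain ⟨b, hb, hMb⟩ := Matrix.exists_mulVec_eq_zero_iff.2 hM
  have h2 : ∀ l : Fin 3, ∑ i, v i l * b i = 0 := by
    intro l
    have := congrFun hMb ⟨l, by omega⟩
    simpa [M, Matrix.mulVec, dotProduct, l.2] using this
  have h3 : ∑ i, iot (b i * c i) * ξ ^ e i = 0 := by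
    calc ∑ i, iot (b i * c i) * ξ ^ e i = ∑ i, iot (b i) * (iot (c i) * ξ ^ e i) := by
          apply Finset.sum_congr rfl; intro i _; rw [map_mul]; ring
      _ = ∑ i, iot (b i) * ∑ l : Fin 3, iot (v i l) * ξ ^ (l : ℕ) := by
          apply Finset.sum_congr rfl; intro i _; rw [hv]
      _ = ∑ l : Fin 3, iot (∑ i, v i l * b i) * ξ ^ (l : ℕ) := by
          simp only [Finset.mul_sum, map_sum, Finset.sum_mul, map_mul]
          rw [Finset.sum_comm]
          apply Finset.sum_congr rfl; intro l _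
          apply Finset.sum_congr rfl; intro i _
          ring
      _ = 0 := by simp [h2]
  rw [Fin.sum_univ_four] at h3
  have he0 : e 0 = 0 := rfl
  have he1 : e 1 = 1 := rfl
  have he2 : e 2 = r := rfl
  have he3 : e 3 = r + 1 := rfl
  rw [he0, he1, he2, he3] at h3
  set a₀ := b 0 * c 0 with ha₀
  set a₁ := b 1 * c 1 with ha₁
  set a₂ := b 2 * c 2 with ha₂
  set a₃ := b 3 * c 3 with ha₃
  have hnz : ¬ (a₀ = 0 ∧ a₁ = 0 ∧ a₂ = 0 ∧ a₃ = 0) := by
    rintro ⟨h0, h1, h2, h3⟩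
    apply hb
    funext i
    have hi : ∀ i, b i * c i = 0 → b i = 0 := fun i h => (mul_eq_zero.1 h).resolve_right (hc i)
    fin_cases i
    · exact hi 0 h0
    · exact hi 1 h1
    · exact hi 2 h2
    · exact hi 3 h3
  have hrel : iot a₀ + iot a₁ * ξ + iot a₂ * ξ ^ r + iot a₃ * ξ ^ (r + 1) = 0 := by
    have := h3
    simp only [pow_zero, pow_one, mul_one] at this
    exact this
  refine ⟨-a₂, -a₀, a₃, a₁, ?_, ?_⟩
  · intro hdet
    have hdet' : a₀ * a₃ = a₂ * a₁ := by linear_combination hdet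
    by_cases h3 : a₃ = 0
    · by_cases h1 : a₁ = 0
      · have h2 : a₂ ≠ 0 := by
          intro h2
          apply hnz
          refine ⟨?_, h1, h2, h3⟩
          rw [h1, h2, h3] at hrel
          simp at hrel
          exact iot_eq_zero.1 hrel
        apply irr_pow p s ξ hirr (-a₀) a₂ h2
        rw [h1, h3] at hrel
        simp only [map_zero, zero_mul, add_zero] at hrel
        rw [map_neg, ← hr]
        linear_combination hrel
      · have h2 : a₂ = 0 := by
          rw [h3, mul_zero] at hdet'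
          exact (mul_eq_zero.1 hdet'.symm).resolve_right h1
        apply hirr (-a₀) a₁ h1
        rw [h2, h3] at hrel
        simp only [map_zero, zero_mul, add_zero] at hrel
        rw [map_neg]
        linear_combination hrel
    · have hfac : (iot a₃ * ξ + iot a₂) * (iot a₃ * ξ ^ r + iot a₁) = 0 := by
        have hd : iot a₀ * iot a₃ = iot a₂ * iot a₁ := by rw [← map_mul, hdet', map_mul]
        rw [pow_succ] at hrel
        linear_combination (iot a₃) * hrel - hd
      rcases mul_eq_zero.1 hfac with h | h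
      · apply hirr (-a₂) a₃ h3
        rw [map_neg]
        linear_combination h
      · apply irr_pow p s ξ hirr (-a₁) a₃ h3
        rw [map_neg, ← hr]
        linear_combination h
  · rw [map_neg, map_neg]
    rw [pow_succ] at hrel
    linear_combination hrel

end Pool.Agent.Helper20.FR
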