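import Pool.Agent.Helper20.FR.P7a

open Polynomial Filter

namespace Pool.Agent.Helper20.FR

universe u

section aux

variable {k : Type u} [Field k] {N E : Type} [Fintype N]

lemma Uv_add (U : Matrix E N (LaurentSeries k)) (x y : N → k[X]) :
    Uv U (x + y) = Uv U x + Uv U y := by
  unfold Uv
  rw [← Matrix.mulVec_add]
  congr 1
  ext i
  simp

lemma Uv_smul (U : Matrix E N (LaurentSeries k)) (g : k[X]) (x : N → k[X]) :
    Uv U (g • x) = iot g • Uv U x := by
  unfold Uv
  rw [← Matrix.mulVec_smul]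
  congr 1
  ext i
  simp

lemma Lt_add (U : Matrix E N (LaurentSeries k)) (t : ℤ) (x y : N → k[X]) :
    Lt U t (x + y) = Lt U t x + Lt U t y := by
  funext a
  rcases a with i | e
  · simp [Lt]
  · simp only [Lt, Sum.elim_inr, Pi.add_apply, Uv_add]
    ring

lemma Lt_smul (U : Matrix E N (LaurentSeries k)) (t : ℤ) (g : k[X]) (x : N → k[X]) :
    Lt U t (g • x) = iot g • Lt U t x := by
  funext a
  rcases a with i | e
  · simp [Lt]
  · simp only [Lt, Sum.elim_inr, Pi.smul_apply, Uv_smul, smul_eq_mul]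
    ring

/-- `Lt` as an additive map -/
noncomputable def LtA (U : Matrix E N (LaurentSeries k)) (t : ℤ) :
    (N → k[X]) →+ (N ⊕ E → LaurentSeries k) where
  toFun := Lt U t
  map_zero' := by
    have := Lt_smul U t 0 0
    simpa using this
  map_add' := Lt_add U t

lemma Lt_sum (U : Matrix E N (LaurentSeries k)) (t : ℤ) {ι : Type*} (s : Finset ι)
    (g : ι → k[X]) (z : ι → N → k[X]) :
    Lt U t (∑ b ∈ s, g b • z b) = ∑ b ∈ s, iot (g b) • Lt U t (z b) := by
  have := map_sum (LtA U t) (fun b => g b • z b) s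
  simp only [LtA, AddMonoidHom.coe_mk, ZeroHom.coe_mk] at this
  rw [this]
  exact Finset.sum_congr rfl fun b _ => Lt_smul U t _ _

lemma Lt_ne_zero (U : Matrix E N (LaurentSeries k)) (t : ℤ) {x : N → k[X]} (hx : x ≠ 0) :
    Lt U t x ≠ 0 := by
  intro h
  apply hx
  funext i
  have := congrFun h (Sum.inl i)
  simpa [Lt, iot_eq_zero] using this

lemma vdeg_Lt_nonneg [Finite E] (U : Matrix E N (LaurentSeries k)) (t : ℤ) {x : N → k[X]}
    (hx : x ≠ 0) : 0 ≤ vdeg (Lt U t x) := by
  obtain ⟨i, hi⟩ := Function.ne_iff.1 hx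
  have h1 := VLe_self (Lt U t x) (Sum.inl i)
  have h2 : Lt U t x (Sum.inl i) = iot (x i) := rfl
  rw [h2, DLe_iot_iff hi] at h1
  have h3 : (0 : ℝ) ≤ (x i).natDegree := Nat.cast_nonneg _
  exact_mod_cast h3.trans h1

/-- tuples in the span of `Y` -/
def InS {κ : ℕ} (Y Z : Matrix N (Fin κ) k[X]) : Prop :=
  LI Z ∧ ∃ (a : k[X]) (Q : Matrix (Fin κ) (Fin κ) k[X]), a ≠ 0 ∧ a • Z = Y * Q

/-- replace a column -/
def rcol {κ : ℕ} (Z : Matrix N (Fin κ) k[X]) (b₀ : Fin κ) (x : N → k[X]) :
    Matrix N (Fin κ) k[X] := Matrix.of fun i b => if b = b₀ then x i else Z i b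

lemma rcol_self {κ : ℕ} (Z : Matrix N (Fin κ) k[X]) (b₀ : Fin κ) (x : N → k[X]) :
    (fun i => rcol Z b₀ x i b₀) = x := by
  funext i; simp [rcol]

lemma rcol_ne {κ : ℕ} (Z : Matrix N (Fin κ) k[X]) (b₀ : Fin κ) (x : N → k[X]) {b : Fin κ}
    (hb : b ≠ b₀) : (fun i => rcol Z b₀ x i b) = fun i => Z i b := by
  funext i; simp [rcol, hb]

lemma InS.rcol {κ : ℕ} {Y Z : Matrix N (Fin κ) k[X]} (h : InS Y Z) (b₀ : Fin κ)
    (g : Fin κ → k[X]) (hg : g b₀ ≠ 0) (π : k[X]) (hπ : π ≠ 0) (x : N → k[X])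
    (hx : π • x = ∑ b, g b • fun i => Z i b) : InS Y (rcol Z b₀ x) := by
  obtain ⟨hLI, a, Q, ha, hQ⟩ := h
  refine ⟨?_, a * π, Matrix.of fun i b => if b = b₀ then Q.mulVec g i else π * Q i b,
    mul_ne_zero ha hπ, ?_⟩
  · unfold LI at hLI ⊢
    rw [Fintype.linearIndependent_iff] at hLI ⊢
    intro c hc
    have h1 : ∑ b, (c b₀ * g b + if b = b₀ then 0 else π * c b) • (fun i => Z i b : N → k[X]) = 0 := by
      have h2 : π • ∑ b, c b • (fun i => FR.rcol Z b₀ x i b : N → k[X]) = 0 := by
        rw [hc, smul_zero]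
      have h3 : ∀ b, π • c b • (fun i => FR.rcol Z b₀ x i b : N → k[X]) =
          (if b = b₀ then c b₀ • (π • x) else 0) +
            (if b = b₀ then 0 else π * c b) • (fun i => Z i b : N → k[X]) := by
        intro b
        by_cases hb : b = b₀
        · subst hb
          rw [rcol_self]
          simp only [if_true, zero_smul, add_zero]
          rw [smul_smul, smul_smul, mul_comm]
        · rw [rcol_ne _ _ _ hb]
          simp only [hb, if_false, zero_add]
          rw [smul_smul]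
      rw [Finset.smul_sum, Finset.sum_congr rfl fun b _ => h3 b, Finset.sum_add_distrib,
        Finset.sum_ite_eq' Finset.univ b₀, if_pos (Finset.mem_univ _), hx, Finset.smul_sum,
        ← Finset.sum_add_distrib] at h2
      rw [← h2]
      apply Finset.sum_congr rfl
      intro b _
      rw [add_smul, smul_smul]
    have h4 := hLI _ h1
    have h5 : c b₀ = 0 := by
      have := h4 b₀
      simp only [if_true, add_zero] at this
      exact (mul_eq_zero.1 this).resolve_right hg
    intro b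
    by_cases hb : b = b₀
    · rw [hb]; exact h5
    · have := h4 b
      simp only [hb, if_false, h5, zero_mul, zero_add] at this
      exact (mul_eq_zero.1 this).resolve_left hπ
  · ext1 i b
    by_cases hb : b = b₀
    · subst hb
      have h1 := congrFun hx i
      simp only [Pi.smul_apply, Finset.sum_apply, smul_eq_mul] at h1
      simp only [Matrix.smul_apply, smul_eq_mul, FR.rcol, Matrix.of_apply, if_true,
        Matrix.mul_apply]
      rw [mul_assoc, h1, Finset.mul_sum]
      have h2 : ∀ b', a * Z i b' = ∑ l, Y i l * Q l b' := by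
        intro b'
        have := congrFun (congrFun hQ i) b'
        simpa [Matrix.mul_apply] using this
      simp only [Matrix.mulVec, dotProduct, Finset.mul_sum]
      rw [Finset.sum_comm]
      apply Finset.sum_congr rfl
      intro b' _
      rw [show a * (g b' * Z i b') = g b' * (a * Z i b') by ring, h2, Finset.mul_sum]
      apply Finset.sum_congr rfl
      intro l _
      ring
    · have h2 : a * Z i b = ∑ l, Y i l * Q l b := by
        have := congrFun (congrFun hQ i) b
        simpa [Matrix.mul_apply] using this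
      simp only [Matrix.smul_apply, smul_eq_mul, FR.rcol, Matrix.of_apply, hb, if_false,
        Matrix.mul_apply]
      rw [show a * π * Z i b = π * (a * Z i b) by ring, h2, Finset.mul_sum]
      apply Finset.sum_congr rfl
      intro l _
      ring

/-- the weight of a tuple -/
noncomputable def wt (U : Matrix E N (LaurentSeries k)) (t : ℤ) {κ : ℕ}
    (Z : Matrix N (Fin κ) k[X]) : ℕ := ∑ b, (vdeg (Lt U t fun i => Z i b)).toNat

lemma LI.col_ne_zero {κ : ℕ} {Z : Matrix N (Fin κ) k[X]} (h : LI Z) (b : Fin κ) :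
    (fun i => Z i b) ≠ 0 := LinearIndependent.ne_zero b h

lemma exists_min [Finite E] (U : Matrix E N (LaurentSeries k)) (t : ℤ) {κ : ℕ}
    (Y : Matrix N (Fin κ) k[X]) (hY : LI Y) : ∃ Z, InS Y Z ∧
    ∀ (b₀ : Fin κ) (g : Fin κ → k[X]) (_ : g b₀ ≠ 0) (π : k[X]) (_ : π ≠ 0) (x : N → k[X])
      (_ : π • x = ∑ b, g b • fun i => Z i b),
      vdeg (Lt U t fun i => Z i b₀) ≤ vdeg (Lt U t x) := by
  classical
  have hne : ∃ n, ∃ Z, InS Y Z ∧ wt U t Z = n :=
    ⟨_, Y, ⟨hY, 1, 1, one_ne_zero, by simp⟩, rfl⟩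
  obtain ⟨Z, hZ, hw⟩ := Nat.find_spec hne
  refine ⟨Z, hZ, ?_⟩
  intro b₀ g hg π hπ x hx
  have hZ' := hZ.rcol b₀ g hg π hπ x hx
  have hmin : wt U t Z ≤ wt U t (rcol Z b₀ x) := by
    rw [hw]
    exact Nat.find_min' hne ⟨_, hZ', rfl⟩
  unfold wt at hmin
  rw [← Finset.add_sum_erase _ _ (Finset.mem_univ b₀),
    ← Finset.add_sum_erase (s := Finset.univ)
      (f := fun b => (vdeg (Lt U t fun i => rcol Z b₀ x i b)).toNat) (Finset.mem_univ b₀)] at hmin
  have h1 : ∑ b ∈ Finset.univ.erase b₀, (vdeg (Lt U t fun i => rcol Z b₀ x i b)).toNat =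
      ∑ b ∈ Finset.univ.erase b₀, (vdeg (Lt U t fun i => Z i b)).toNat := by
    apply Finset.sum_congr rfl
    intro b hb
    rw [rcol_ne _ _ _ (Finset.ne_of_mem_erase hb)]
  rw [h1, rcol_self] at hmin
  have hx0 : x ≠ 0 := by
    have := hZ'.1.col_ne_zero b₀
    rwa [rcol_self] at this
  have h2 := vdeg_Lt_nonneg U t hx0
  have h3 := vdeg_Lt_nonneg U t (hZ.1.col_ne_zero b₀)
  omega

lemma prim_span {F : Type} [Fintype F] {q : F → k[X]} (hq : Prim q) :
    ∃ r : F → k[X], ∑ f, r f * q f = 1 := by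
  obtain ⟨g, hg⟩ := (IsPrincipalIdealRing.principal (Ideal.span (Set.range q))).principal
  have h1 : ∀ f, g ∣ q f := by
    intro f
    have : q f ∈ Ideal.span (Set.range q) := Ideal.subset_span ⟨f, rfl⟩
    rw [hg] at this
    exact Ideal.mem_span_singleton.1 this
  have h2 := hq g h1
  have h3 : (1 : k[X]) ∈ Ideal.span (Set.range q) := by
    rw [hg]
    exact Ideal.mem_span_singleton.2 h2.dvd
  obtain ⟨r, hr⟩ := (Ideal.mem_span_range_iff_exists_fun).1 h3
  exact ⟨r, hr⟩

lemma prim_dvd {F : Type} [Fintype F] {q : F → k[X]} (hq : Prim q) {d e : k[X]}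
    (h : ∀ f, d ∣ e * q f) : d ∣ e := by
  obtain ⟨r, hr⟩ := prim_span hq
  have : e = ∑ f, r f * (e * q f) := by
    calc e = e * ∑ f, r f * q f := by rw [hr, mul_one]
      _ = _ := by
        rw [Finset.mul_sum]
        exact Finset.sum_congr rfl fun f _ => by ring
  rw [this]
  exact Finset.dvd_sum fun f _ => Dvd.dvd.mul_left (h f) _

/-- the leading coefficient vectors are independent -/
lemma lead_indep [Finite E] (U : Matrix E N (LaurentSeries k)) (t : ℤ) {κ : ℕ}
    {Y Z : Matrix N (Fin κ) k[X]} (hZ : InS Y Z)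
    (hmin : ∀ (b₀ : Fin κ) (g : Fin κ → k[X]) (_ : g b₀ ≠ 0) (π : k[X]) (_ : π ≠ 0) (x : N → k[X])
      (_ : π • x = ∑ b, g b • fun i => Z i b),
      vdeg (Lt U t fun i => Z i b₀) ≤ vdeg (Lt U t x)) :
    LinearIndependent k fun b : Fin κ => (fun a : N ⊕ E =>
      (Lt U t (fun i => Z i b) a).coeff (-vdeg (Lt U t fun i => Z i b))) := by
  classical
  rw [Fintype.linearIndependent_iff]
  by_contra hcon
  push Not at hcon
  obtain ⟨g, hg0, b₁, hb₁⟩ := hcon
  set n : Fin κ → ℤ := fun b => vdeg (Lt U t fun i => Z i b) with hn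
  obtain ⟨b₀, hb₀, hmax⟩ := Finset.exists_max_image (Finset.univ.filter fun b => g b ≠ 0) n
    ⟨b₁, by simpa using hb₁⟩
  simp only [Finset.mem_filter, Finset.mem_univ, true_and] at hb₀ hmax
  let G : Fin κ → k[X] := fun b => if g b = 0 then 0 else C (g b) * X ^ (n b₀ - n b).toNat
  have hG0 : G b₀ ≠ 0 := by simp [G, hb₀]
  let x : N → k[X] := ∑ b, G b • fun i => Z i b
  have hx : (1 : k[X]) • x = ∑ b, G b • fun i => Z i b := by simp [x]
  have hx0 : x ≠ 0 := by
    have := (hZ.rcol b₀ G hG0 1 one_ne_zero x hx).1.col_ne_zero b₀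
    rwa [rcol_self] at this
  have h1 := hmin b₀ G hG0 1 one_ne_zero x hx
  have h2 : VLe (Lt U t x) ((n b₀ - 1 : ℤ) : ℝ) := by
    intro a m hm
    have hm' : m ≤ - n b₀ := by
      have : m < -(n b₀ - 1) := by exact_mod_cast hm
      omega
    have h3 : Lt U t x a = ∑ b, iot (G b) * Lt U t (fun i => Z i b) a := by
      have := congrFun (Lt_sum U t Finset.univ G fun b i => Z i b) a
      simp only [Finset.sum_apply, Pi.smul_apply, smul_eq_mul] at this
      exact this
    rw [h3, HahnSeries.coeff_sum]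
    have h4 : ∀ b, (iot (G b) * Lt U t (fun i => Z i b) a).coeff m =
        if m = - n b₀ then g b * (Lt U t (fun i => Z i b) a).coeff (- n b) else 0 := by
      intro b
      by_cases hb : g b = 0
      · simp [G, hb]
      · have hle := hmax b hb
        have h5 : iot (G b) = HahnSeries.C (g b) * Tz (n b₀ - n b) := by
          simp only [G, hb, if_false, map_mul, iot_C, iot_X_pow]
          congr 2
          omega
        have h6 : (iot (G b) * Lt U t (fun i => Z i b) a).coeff m =
            g b * (Lt U t (fun i => Z i b) a).coeff (m + (n b₀ - n b)) := by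
          rw [h5, mul_assoc, HahnSeries.C_apply]
          have := HahnSeries.coeff_single_mul_add (r := g b)
            (x := (Tz (n b₀ - n b) * Lt U t (fun i => Z i b) a)) (a := m) (b := (0 : ℤ))
          rw [add_zero] at this
          rw [this, Tz_mul_coeff]
        rw [h6]
        split_ifs with hmm
        · rw [hmm]; congr 2; ring
        · have h7 : (Lt U t (fun i => Z i b) a).coeff (m + (n b₀ - n b)) = 0 := by
            apply VLe_self (Lt U t fun i => Z i b) a
            have : m + (n b₀ - n b) < - n b := by omega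
            exact_mod_cast this
          rw [h7, mul_zero]
    rw [Finset.sum_congr rfl fun b _ => h4 b]
    by_cases hmm : m = - n b₀
    · simp only [hmm, if_true]
      have := congrFun hg0 a
      simpa using this
    · simp [hmm]
  have h3 := (VLe_iff (Lt_ne_zero U t hx0)).1 h2
  have h4 : vdeg (Lt U t x) ≤ n b₀ - 1 := by exact_mod_cast h3
  have h5 : n b₀ ≤ vdeg (Lt U t x) := h1
  omega

/-- the maximal minors of a minimal tuple have no common irreducible factor -/
lemma no_common [Finite E] (U : Matrix E N (LaurentSeries k)) (t : ℤ) {κ : ℕ}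
    {Y Z : Matrix N (Fin κ) k[X]} (hZ : InS Y Z)
    (hmin : ∀ (b₀ : Fin κ) (g : Fin κ → k[X]) (_ : g b₀ ≠ 0) (π : k[X]) (_ : π ≠ 0) (x : N → k[X])
      (_ : π • x = ∑ b, g b • fun i => Z i b),
      vdeg (Lt U t fun i => Z i b₀) ≤ vdeg (Lt U t x))
    (π : k[X]) (hπ : Irreducible π) (hd : ∀ f : Fin κ → N, π ∣ mnr Z f) : False := by
  classical
  have hmx : (Ideal.span {π}).IsMaximal :=
    PrincipalIdealRing.isMaximal_of_irreducible hπ
  letI : Field (k[X] ⧸ Ideal.span {π}) := Ideal.Quotient.field _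
  let φ : k[X] →+* (k[X] ⧸ Ideal.span {π}) := Ideal.Quotient.mk _
  have hdep : ¬ LinearIndependent (k[X] ⧸ Ideal.span {π}) fun b : Fin κ =>
      (fun i => (Z.map φ) i b) := by
    intro hli
    obtain ⟨f, hf⟩ := mn_field _ hli
    apply hf
    have h1 : (Matrix.of fun a b => (Z.map φ) (f a) b : Matrix (Fin κ) (Fin κ) _).det =
        φ (mnr Z f) := by
      rw [mnr, RingHom.map_det]
      rfl
    rw [h1]
    exact Ideal.Quotient.eq_zero_iff_mem.2 (Ideal.mem_span_singleton.2 (hd f))
  rw [Fintype.linearIndependent_iff] at hdep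
  push Not at hdep
  obtain ⟨gb, hgb, b₁, hb₁⟩ := hdep
  have hlift : ∀ b, ∃ g : k[X], φ g = gb b ∧ (g = 0 ∨ g.natDegree < π.natDegree) := by
    intro b
    obtain ⟨g, hg⟩ := Ideal.Quotient.mk_surjective (gb b)
    refine ⟨g % π, ?_, ?_⟩
    · rw [← hg]
      have h2 : g = π * (g / π) + g % π := (EuclideanDomain.div_add_mod g π).symm
      have h3 : φ g = φ (g % π) := by
        conv_lhs => rw [h2]
        rw [map_add, map_mul]
        have : φ π = 0 := Ideal.Quotient.eq_zero_iff_mem.2 (Ideal.mem_span_singleton_self π)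
        rw [this, zero_mul, zero_add]
      exact h3.symm
    · by_cases h0 : g % π = 0
      · exact Or.inl h0
      · right
        exact natDegree_mod_lt g hπ.natDegree_pos.ne'
  choose g hg1 hg2 using hlift
  have hdvd : ∀ i, π ∣ ∑ b, g b * Z i b := by
    intro i
    rw [← Ideal.mem_span_singleton, ← Ideal.Quotient.eq_zero_iff_mem]
    have h1 := congrFun hgb i
    simp only [Finset.sum_apply, Pi.smul_apply, smul_eq_mul, Matrix.map_apply, Pi.zero_apply] at h1
    change φ _ = 0
    rw [map_sum, ← h1]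
    apply Finset.sum_congr rfl
    intro b _
    rw [map_mul, hg1]
  choose x hx using hdvd
  have hx' : π • x = ∑ b, g b • fun i => Z i b := by
    funext i
    simp only [Pi.smul_apply, smul_eq_mul, Finset.sum_apply]
    rw [← hx]
  have hgb₁ : g b₁ ≠ 0 := by
    intro h
    apply hb₁
    rw [← hg1, h, map_zero]
  set n : Fin κ → ℤ := fun b => vdeg (Lt U t fun i => Z i b) with hn
  obtain ⟨b₀, hb₀, hmax⟩ := Finset.exists_max_image (Finset.univ.filter fun b => g b ≠ 0) n
    ⟨b₁, by simpa using hgb₁⟩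
  simp only [Finset.mem_filter, Finset.mem_univ, true_and] at hb₀ hmax
  have h1 := hmin b₀ g hb₀ π hπ.ne_zero x hx'
  have hx0 : x ≠ 0 := by
    have := (hZ.rcol b₀ g hb₀ π hπ.ne_zero x hx').1.col_ne_zero b₀
    rwa [rcol_self] at this
  have hπd : dg (iot π) = π.natDegree := dg_iot hπ.ne_zero
  have h2 : VLe (Lt U t x) ((n b₀ - 1 : ℤ) : ℝ) := by
    intro a
    have h3 : iot π * Lt U t x a = ∑ b, iot (g b) * Lt U t (fun i => Z i b) a := by
      have h4 := congrFun (Lt_sum U t Finset.univ g fun b i => Z i b) a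
      simp only [Finset.sum_apply, Pi.smul_apply, smul_eq_mul] at h4
      rw [← h4, ← hx']
      have h5 := congrFun (Lt_smul U t π x) a
      simpa using h5.symm
    by_cases h0 : Lt U t x a = 0
    · rw [h0]; exact DLe_zero _
    have h4 : DLe (iot π * Lt U t x a) ((π.natDegree - 1 : ℝ) + n b₀) := by
      rw [h3]
      apply DLe.sum
      intro b _
      by_cases hb : g b = 0
      · rw [hb, map_zero, zero_mul]; exact DLe_zero _
      · have h5 : DLe (iot (g b)) (π.natDegree - 1 : ℝ) := by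
          rw [DLe_iot_iff hb]
          have := (hg2 b).resolve_left hb
          have : ((g b).natDegree : ℝ) + 1 ≤ π.natDegree := by exact_mod_cast this
          linarith
        have h6 : DLe (Lt U t (fun i => Z i b) a) (n b₀ : ℝ) := by
          apply (VLe_self (Lt U t fun i => Z i b) a).mono
          exact_mod_cast hmax b hb
        exact h5.mul h6
    have hπ0 : iot π ≠ 0 := by rw [Ne, iot_eq_zero]; exact hπ.ne_zero
    rw [DLe_iff (mul_ne_zero hπ0 h0), dg_mul hπ0 h0, hπd] at h4
    rw [DLe_iff h0]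
    push_cast at h4 ⊢
    linarith
  have h3 := (VLe_iff (Lt_ne_zero U t hx0)).1 h2
  have h4 : vdeg (Lt U t x) ≤ n b₀ - 1 := by exact_mod_cast h3
  have h5 : n b₀ ≤ vdeg (Lt U t x) := h1
  omega

lemma mnr_mul {ι : Type} {S : Type*} [CommRing S] {κ : ℕ} (Y : Matrix ι (Fin κ) S)
    (Q : Matrix (Fin κ) (Fin κ) S) (f : Fin κ → ι) : mnr (Y * Q) f = mnr Y f * Q.det := by
  rw [mnr, mnr, ← Matrix.det_mul]
  rfl

lemma mnr_smul {ι : Type} {S : Type*} [CommRing S] {κ : ℕ} (c : S) (Y : Matrix ι (Fin κ) S)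
    (f : Fin κ → ι) : mnr (c • Y) f = c ^ κ * mnr Y f := by
  have h : (Matrix.of fun a b => (c • Y) (f a) b : Matrix (Fin κ) (Fin κ) S) =
      c • Matrix.of fun a b => Y (f a) b := by
    ext a b; simp
  rw [mnr, h, Matrix.det_smul, Fintype.card_fin]
  rfl

lemma big_smul (U : Matrix E N (LaurentSeries k)) {κ : ℕ} (a : k[X]) (Z : Matrix N (Fin κ) k[X]) :
    big U (a • Z) = iot a • big U Z := by
  ext1 r b
  rcases r with i | e
  · simp [big]
  · have h := congrFun (Uv_smul U a fun i => Z i b) e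
    simp only [big, Matrix.of_apply, Sum.elim_inr, Matrix.smul_apply, smul_eq_mul]
    exact h

lemma big_mul (U : Matrix E N (LaurentSeries k)) {κ : ℕ} (Y : Matrix N (Fin κ) k[X])
    (Q : Matrix (Fin κ) (Fin κ) k[X]) : big U (Y * Q) = big U Y * Q.map iot := by
  ext1 r b
  rcases r with i | e
  · simp [big, Matrix.mul_apply]
  · simp only [big, Matrix.of_apply, Sum.elim_inr, Matrix.mul_apply, Matrix.map_apply, Uv,
      Matrix.mulVec, dotProduct]
    simp only [map_sum, map_mul, Finset.mul_sum, Finset.sum_mul]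
    rw [Finset.sum_comm]
    apply Finset.sum_congr rfl
    intro i _
    apply Finset.sum_congr rfl
    intro l _
    ring

lemma prod_Tz {ι : Type*} (s : Finset ι) (n : ι → ℤ) :
    ∏ b ∈ s, (Tz (n b) : LaurentSeries k) = Tz (∑ b ∈ s, n b) := by
  classical
  induction s using Finset.induction_on with
  | empty => simp [Tz_zero]
  | insert a s ha ih => rw [Finset.prod_insert ha, Finset.sum_insert ha, Tz_add, ih]

end aux

theorem mk_thm (hmn : S_MN.{u}) : S_MK.{u} := by
  intro k _ N E _ _ _ _ U κ Y c q hY hc hq hcq t θ hθ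
  classical
  obtain ⟨Z, hZ, hmin⟩ := exists_min U t Y hY
  have hind := lead_indep U t hZ hmin
  have hZp : Prim (fun f : Fin κ → N => mnr Z f) := by
    intro d hd
    by_contra hu
    have hd0 : d ≠ 0 := by
      rintro rfl
      obtain ⟨f, hf⟩ := (hmn k N κ Z).1 hZ.1
      exact hf (zero_dvd_iff.1 (hd f))
    obtain ⟨π, hπ, hπd⟩ := WfDvdMonoid.exists_irreducible_factor hu hd0
    exact no_common U t hZ hmin π hπ fun f => hπd.trans (hd f)
  obtain ⟨hZLI, a, Q, ha, hQ⟩ := hZ
  -- relation between the minors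
  have hrel : ∀ f : Fin κ → N, a ^ κ * mnr Z f = (c * Q.det) * q f := by
    intro f
    rw [← mnr_smul, hQ, mnr_mul, hcq]
    ring
  have hd1 : a ^ κ ∣ c * Q.det := prim_dvd hq fun f => ⟨mnr Z f, (hrel f).symm⟩
  have hd2 : c * Q.det ∣ a ^ κ := prim_dvd hZp fun f => ⟨q f, hrel f⟩
  have haκ : a ^ κ ≠ 0 := pow_ne_zero _ ha
  have hcQ : c * Q.det ≠ 0 := fun h => haκ (zero_dvd_iff.1 (h ▸ hd2))
  have hQ0 : Q.det ≠ 0 := right_ne_zero_of_mul hcQ
  have hdeg : (a ^ κ).natDegree = c.natDegree + Q.det.natDegree := by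
    rw [← natDegree_mul hc hQ0]
    exact le_antisymm (natDegree_le_of_dvd hd1 hcQ) (natDegree_le_of_dvd hd2 haκ)
  -- a nonzero minor of the leading coefficients
  obtain ⟨f, hf⟩ := mn_field (Matrix.of fun (a : N ⊕ E) (b : Fin κ) =>
    (Lt U t (fun i => Z i b) a).coeff (-vdeg (Lt U t fun i => Z i b))) hind
  set n : Fin κ → ℤ := fun b => vdeg (Lt U t fun i => Z i b) with hn
  let M : Matrix (Fin κ) (Fin κ) (LaurentSeries k) :=
    Matrix.of fun a b => Tz (-n b) * Lt U t (fun i => Z i b) (f a)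
  have hM0 : ∀ a b, DLe (M a b) 0 := by
    intro a b
    have h1 : DLe (Tz (-n b) : LaurentSeries k) (-(n b) : ℝ) := by
      rw [DLe_iff (Tz_ne_zero _), dg_Tz]; simp
    have h2 := h1.mul (VLe_self (Lt U t fun i => Z i b) (f a))
    have h3 : (-(n b) : ℝ) + (vdeg (Lt U t fun i => Z i b) : ℝ) = 0 := by
      simp [hn]
    rw [h3] at h2
    exact h2
  have hMc : M.det.coeff 0 ≠ 0 := by
    rw [coeff_zero_det M hM0]
    have h1 : (Matrix.of fun a b => (M a b).coeff 0 : Matrix (Fin κ) (Fin κ) k) =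
        Matrix.of fun a' b => (Matrix.of fun (a : N ⊕ E) (b : Fin κ) =>
          (Lt U t (fun i => Z i b) a).coeff (-vdeg (Lt U t fun i => Z i b))) (f a') b := by
      ext a b
      simp only [M, Matrix.of_apply, Tz_mul_coeff]
      congr 1
      simp [hn]
    rw [h1]
    exact hf
  have hMne : M.det ≠ 0 := by
    intro h
    rw [h] at hMc
    simp at hMc
  have hMdg : 0 ≤ dg M.det := by
    have := HahnSeries.order_le_of_coeff_ne_zero hMc
    simp only [dg]
    omega
  have hMdet : M.det = Tz (∑ b, -n b) * (Tz (typ f * t) * mnr (big U Z) f) := by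
    have h1 : M.det = (∏ b, Tz (-n b)) *
        (Matrix.of fun a b => Lt U t (fun i => Z i b) (f a) : Matrix (Fin κ) (Fin κ) _).det := by
      rw [← Matrix.det_mul_row]
      rfl
    have h2 : (Matrix.of fun a b => Lt U t (fun i => Z i b) (f a) : Matrix (Fin κ) (Fin κ) _).det =
        (∏ a, (Tz (if (f a).isRight then t else 0) : LaurentSeries k)) * mnr (big U Z) f := by
      rw [mnr, ← Matrix.det_mul_column]
      congr 1
      ext1 a b
      rcases hfa : f a with i | e
      · simp [big, Lt, hfa, Tz_zero]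
      · simp [big, Lt, hfa]
    have h3 : ∑ a, (if (f a).isRight then t else 0) = typ f * t := by
      rw [Finset.sum_ite, Finset.sum_const, Finset.sum_const_zero, add_zero, nsmul_eq_mul]
      rfl
    rw [h1, prod_Tz, h2, prod_Tz, h3]
  have hZb : mnr (big U Z) f ≠ 0 := by
    intro h
    rw [hMdet, h, mul_zero, mul_zero] at hMne
    exact hMne rfl
  have hdM : dg M.det = -(∑ b, n b) + (typ f * t + dg (mnr (big U Z) f)) := by
    rw [hMdet, dg_mul (Tz_ne_zero _) (mul_ne_zero (Tz_ne_zero _) hZb),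
      dg_mul (Tz_ne_zero _) hZb, dg_Tz, dg_Tz, Finset.sum_neg_distrib]
  -- compare with the minors of `Y`
  have hbig : iot (a ^ κ) * mnr (big U Z) f = mnr (big U Y) f * iot Q.det := by
    have h1 : mnr (big U (a • Z)) f = mnr (big U (Y * Q)) f := by rw [hQ]
    rw [big_smul, big_mul, mnr_smul, mnr_mul, ← map_pow] at h1
    rw [h1, RingHom.map_det]
    rfl
  have hYb : mnr (big U Y) f ≠ 0 := by
    intro h
    rw [h, zero_mul] at hbig
    rcases mul_eq_zero.1 hbig with h1 | h1
    · exact haκ (iot_eq_zero.1 h1)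
    · exact hZb h1
  have hdY : (a ^ κ).natDegree + dg (mnr (big U Z) f) =
      dg (mnr (big U Y) f) + Q.det.natDegree := by
    have h1 : iot (a ^ κ) ≠ 0 := by rwa [Ne, iot_eq_zero]
    have h2 : iot Q.det ≠ 0 := by rwa [Ne, iot_eq_zero]
    have h3 := congrArg dg hbig
    rwa [dg_mul h1 hZb, dg_mul hYb h2, dg_iot haκ, dg_iot hQ0] at h3
  refine ⟨f, hYb, ?_⟩
  have h1 : (κ : ℝ) * θ ≤ ∑ b, (n b : ℝ) := by
    have : ∑ _b : Fin κ, θ ≤ ∑ b, (n b : ℝ) :=
      Finset.sum_le_sum fun b _ => hθ _ (hZLI.col_ne_zero b)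
    simpa using this
  have h2 : ∑ b, n b ≤ typ f * t + dg (mnr (big U Y) f) - c.natDegree := by
    have h3 : ((a ^ κ).natDegree : ℤ) = c.natDegree + Q.det.natDegree := by exact_mod_cast hdeg
    omega
  have h3 : ∑ b, (n b : ℝ) ≤ typ f * t + dg (mnr (big U Y) f) - c.natDegree := by
    have : ((∑ b, n b : ℤ) : ℝ) ≤
        ((typ f * t + dg (mnr (big U Y) f) - c.natDegree : ℤ) : ℝ) := by exact_mod_cast h2
    push_cast at this
    exact this
  linarith

end Pool.Agent.Helper20.FR
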