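import Pool.Agent.Helper20.FR.P13
import Pool.Agent.Helper20.FR.P7
import Pool.Agent.Helper20.FR.P24
import Pool.Agent.Helper31.FR.P2
import Pool.Agent.Helper35.FR.P5
import Pool.Agent.Helper35.FR.P18
import Pool.Agent.Helper51.FR.P17
import Pool.Agent.Helper51.FR.P8
import Pool.Agent.Helper6.FR.P15
import Pool.Agent.Helper6.FR.P16
import Pool.Agent.Helper6.FR.P4d
import Pool.Agent.Helper72.FR.P6
import Pool.Agent.Helper72.FR.P3
import Pool.Agent.Helper72.FR.P4abc
import Pool.Agent.Helper8.FR.P10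
import Pool.Agent.Helper8.FR.P11
import Pool.Agent.Helper8.FR.P12
import Pool.Agent.Helper8.FR.P9
import Pool.Agent.Helper92.FR.P20
import Pool.Agent.Helper92.FR.P22

open Polynomial Filter

namespace Pool.Agent.Helper20.FR

universe u

open Pool.Agent

theorem A_final : S_A.{u} :=
  A_thm Helper8.FR.cs_thm (Helper51.FR.P8.ns_thm Helper6.FR.mn)
    (Helper72.FR.cnt (Helper72.FR.rp Helper31.FR.fs_thm) Helper72.FR.pla Helper72.FR.plb
      Helper72.FR.plc Helper6.FR.mn)
    (Helper35.FR.typ_thm Helper31.FR.kp_thm Helper72.FR.pla Helper72.FR.plb Helper72.FR.plc)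
    Helper8.FR.ub_thm Helper8.FR.lb_thm (mk_thm Helper6.FR.mn) Helper8.FR.tn_thm

section

variable {k : Type u} [Field k]

/-- a hyperquadratic element is algebraic -/
lemma HQ.alg {r : ℕ} (hr : 2 ≤ r) {ξ : LaurentSeries k} (h : HQ r ξ) :
    ∃ f : k[X][X], f ≠ 0 ∧ ev ξ f = 0 := by
  obtain ⟨A, B, C, D, hdet, hrel⟩ := h
  refine ⟨Polynomial.C C * X ^ (r + 1) + Polynomial.C D * X - Polynomial.C A * X ^ r -
    Polynomial.C B, ?_, ?_⟩
  · intro h0
    apply hdet
    have h1 : (0 : k[X][X]).coeff (r + 1) = 0 := coeff_zero _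
    have h3 : (0 : k[X][X]).coeff r = 0 := coeff_zero _
    rw [← h0] at h1 h3
    simp only [coeff_sub, coeff_add, coeff_C_mul, coeff_X_pow, coeff_X, coeff_C] at h1 h3
    have e1 : ¬ (1 = r + 1) := by omega
    have e2 : ¬ (r + 1 = r) := by omega
    have e3 : ¬ (r + 1 = 0) := by omega
    have e6 : ¬ (r = r + 1) := by omega
    have e7 : ¬ (r = 0) := by omega
    have e9 : ¬ (1 = r) := by omega
    simp only [e1, e2, e3, e6, e7, e9, if_true, if_false, mul_one, mul_zero, add_zero, sub_zero,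
      zero_add, zero_sub, neg_eq_zero] at h1 h3
    rw [h1, h3]
    ring
  · simp only [ev, eval₂_sub, eval₂_add, eval₂_mul, eval₂_C, eval₂_pow, eval₂_X]
    rw [pow_succ]
    linear_combination hrel

/-- an annihilator of minimal degree -/
lemma exists_minimal_ann {ξ : LaurentSeries k} (h : ∃ f : k[X][X], f ≠ 0 ∧ ev ξ f = 0) :
    ∃ f : k[X][X], f ≠ 0 ∧ ev ξ f = 0 ∧
      ∀ g : k[X][X], g ≠ 0 → ev ξ g = 0 → f.natDegree ≤ g.natDegree := by
  classical
  have h1 : ∃ n, ∃ f : k[X][X], f ≠ 0 ∧ ev ξ f = 0 ∧ f.natDegree = n := by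
    obtain ⟨f, hf, hf'⟩ := h
    exact ⟨_, f, hf, hf', rfl⟩
  obtain ⟨f, hf, hfe, hfd⟩ := Nat.find_spec h1
  refine ⟨f, hf, hfe, fun g hg hge => ?_⟩
  rw [hfd]
  exact Nat.find_min' h1 ⟨g, hg, hge, rfl⟩

lemma two_le_deg {ξ : LaurentSeries k} (hirr : ∀ a b : k[X], b ≠ 0 → iot b * ξ ≠ iot a)
    {f : k[X][X]} (hf : f ≠ 0) (hfe : ev ξ f = 0) : 2 ≤ f.natDegree := by
  by_contra hlt
  push Not at hlt
  have h1 : f.natDegree ≤ 1 := by omega
  have h2 := eq_X_add_C_of_natDegree_le_one h1
  have h3 : iot (f.coeff 1) * ξ + iot (f.coeff 0) = 0 := by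
    rw [h2] at hfe
    simpa [ev] using hfe
  by_cases h4 : f.coeff 1 = 0
  · rw [h4, map_zero, zero_mul, zero_add] at h3
    apply hf
    rw [h2, h4, iot_eq_zero.1 h3]
    simp
  · apply hirr (-f.coeff 0) _ h4
    rw [map_neg]
    linear_combination h3

lemma le_vdeg {F : Type*} [Finite F] {v : F → LaurentSeries k} {f : F} (hf : v f ≠ 0) :
    dg (v f) ≤ vdeg v := by
  have := (DLe_iff hf).1 (VLe_self v f)
  exact_mod_cast this

lemma Hp_le_hgt {n : ℕ} (x : Fin (n + 1) → k[X]) : Hp (Helper92.FR.toP x) ≤ hgt x := by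
  unfold Hp
  apply Finset.sup_le
  intro i _
  by_cases hi : i < n + 1
  · have h1 := Helper92.FR.toP_coeff x ⟨i, hi⟩
    simp only at h1
    rw [h1]
    exact Finset.le_sup (f := fun i => (x i).natDegree) (Finset.mem_univ _)
  · rw [coeff_eq_zero_of_natDegree_lt (lt_of_le_of_lt (Helper92.FR.toP_natDegree x) (by omega))]
    simp

lemma toP_ne_zero {n : ℕ} {x : Fin (n + 1) → k[X]} (hx : x ≠ 0) : Helper92.FR.toP x ≠ 0 := by
  rw [← Helper92.FR.toP_zero (n := n)]
  exact fun h => hx (Helper92.FR.toP_injective h)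

lemma sim_apply {n : ℕ} (ξ : LaurentSeries k) (x : Fin (n + 1) → k[X]) (i : Fin n) :
    Uv (simU n ξ) x i = ξ ^ ((i : ℕ) + 1) * iot (x 0) - iot (x i.succ) := by
  classical
  rw [Uv, Matrix.mulVec, dotProduct, Fin.sum_univ_succ]
  simp only [simU, Matrix.of_apply, Fin.val_zero, if_true, Fin.val_succ]
  have h1 : ∀ l : Fin n, (if (l : ℕ) + 1 = 0 then ξ ^ ((i : ℕ) + 1) else
      if (l : ℕ) + 1 = (i : ℕ) + 1 then (-1 : LaurentSeries k) else 0) * iot (x l.succ) =
      if l = i then - iot (x i.succ) else 0 := by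
    intro l
    by_cases h : l = i
    · subst h; simp
    · have : ¬ ((l : ℕ) = i) := fun h' => h (Fin.ext h')
      simp [h, this]
  rw [Finset.sum_congr rfl fun l _ => h1 l, Finset.sum_ite_eq' Finset.univ i]
  simp [sub_eq_add_neg]

lemma sim_ne_zero {n : ℕ} (hn : 1 ≤ n) {ξ : LaurentSeries k}
    (hirr : ∀ a b : k[X], b ≠ 0 → iot b * ξ ≠ iot a)
    {x : Fin (n + 1) → k[X]} (hx : x ≠ 0) : Uv (simU n ξ) x ≠ 0 := by
  intro h
  have h1 := congrFun h ⟨0, by omega⟩
  rw [sim_apply] at h1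
  simp only [zero_add, pow_one, Pi.zero_apply] at h1
  have h0 : x 0 = 0 := by
    by_contra hne
    apply hirr (x (Fin.succ ⟨0, by omega⟩)) (x 0) hne
    linear_combination h1
  apply hx
  funext l
  refine Fin.cases h0 (fun i => ?_) l
  have h2 := congrFun h i
  rw [sim_apply, h0, map_zero, mul_zero, zero_sub, Pi.zero_apply, neg_eq_zero] at h2
  exact iot_eq_zero.1 h2

end

/-- the main theorem -/
theorem main_thm {k : Type u} [Field k] [Finite k] {p : ℕ} [Fact p.Prime] [CharP k p]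
    (s : ℕ) (hs : 1 ≤ s) (ξ : LaurentSeries k)
    (hirr : ∀ a b : k[X], b ≠ 0 → iot b * ξ ≠ iot a) (hHQ : HQ (p ^ s) ξ) (n : ℕ) (hn : 1 ≤ n) :
    (∃ ρ : ℚ, wExp n ξ = ((ρ : ℝ) : EReal)) ∧ ∃ ρ : ℚ, lExp n ξ = ((ρ : ℝ) : EReal) := by
  have hp2 : 2 ≤ p := (Fact.out : p.Prime).two_le
  have hr : 2 ≤ p ^ s := hp2.trans (by
    calc p = p ^ 1 := (pow_one p).symm
      _ ≤ p ^ s := Nat.pow_le_pow_right (by omega) hs)
  obtain ⟨f, hf, hfe, hmin⟩ := exists_minimal_ann (hHQ.alg hr)
  have hd := two_le_deg hirr hf hfe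
  have hd' : (0 : ℝ) ≤ (f.natDegree : ℝ) - 1 := by
    have : (2 : ℝ) ≤ f.natDegree := by exact_mod_cast hd
    linarith
  constructor
  · by_cases hnd : f.natDegree ≤ n + 1
    · refine ⟨((f.natDegree - 1 : ℕ) : ℚ), ?_⟩
      rw [Helper92.FR.w2_thm Helper51.FR.P17.li_thm Helper35.FR.di_thm k ξ f hf hfe hmin n hn hnd hd]
      norm_num
    · have hnv : ∀ x : Fin (n + 1) → k[X], x ≠ 0 → Uv (rowU n ξ) x ≠ 0 := by
        intro x hx h
        have h1 := hmin (Helper92.FR.toP x) (toP_ne_zero hx) (by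
          rw [ev, Helper92.FR.toP_ev x ξ (), h]; rfl)
        have h2 := Helper92.FR.toP_natDegree x
        omega
      obtain ⟨c, hc⟩ := Helper51.FR.P17.li_thm k ξ f hf hfe hmin n
      obtain ⟨w, hw0, hw, hinf, hfin⟩ := Helper92.FR.w1_thm k ξ n hn hnv
        ((f.natDegree : ℝ) - 1 + |c|) (by
          intro x hx
          have h1 : Uv (rowU n ξ) x () ≠ 0 := by
            intro h
            apply hnv x hx
            funext u
            exact h
          have h2 : ev ξ (Helper92.FR.toP x) = Uv (rowU n ξ) x () :=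
            Helper92.FR.toP_ev x ξ ()
          have h3 := hc (Helper92.FR.toP x) (Helper92.FR.toP_natDegree x) (by rw [h2]; exact h1)
          rw [h2] at h3
          have h4 : ((dg (Uv (rowU n ξ) x ()) : ℤ) : ℝ) ≤ vdeg (Uv (rowU n ξ) x) := by
            exact_mod_cast le_vdeg h1
          have h5 : ((Hp (Helper92.FR.toP x) : ℕ) : ℝ) ≤ hgt x := by exact_mod_cast Hp_le_hgt x
          have h6 : (0 : ℝ) ≤ hgt x := Nat.cast_nonneg _
          have h7 := le_abs_self c
          have h8 := abs_nonneg c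
          nlinarith [mul_nonneg hd' (sub_nonneg.2 h5), mul_nonneg h8 h6])
      obtain ⟨A, Γ, hA, hΓ, hrel⟩ := Helper6.FR.r1 k (p ^ s) ξ hHQ n
      obtain ⟨ρ, hρ⟩ := A_final k p s hs (Fin (n + 1)) Unit (rowU n ξ) A Γ hA hΓ hrel hnv w hw0
        hinf hfin
      exact ⟨ρ, by rw [hw, hρ]⟩
  · have hnv : ∀ x : Fin (n + 1) → k[X], x ≠ 0 → Uv (simU n ξ) x ≠ 0 :=
      fun x hx => sim_ne_zero hn hirr hx
    obtain ⟨c, hc⟩ := Helper51.FR.P17.li_thm k ξ f hf hfe hmin 1
    obtain ⟨w, hw0, hw, hinf, hfin⟩ := Helper92.FR.l1_thm k ξ n hn hnv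
      ((f.natDegree : ℝ) - 1 + |c|) (by
        intro x hx
        have h6 : (0 : ℝ) ≤ hgt x := Nat.cast_nonneg _
        have h7 := le_abs_self c
        have h8 := abs_nonneg c
        have hC : 0 ≤ (f.natDegree : ℝ) - 1 + |c| := by linarith
        let i₀ : Fin n := ⟨0, by omega⟩
        by_cases h0 : x 0 = 0 ∧ x i₀.succ = 0
        · -- some later coordinate is nonzero
          obtain ⟨l, hl⟩ := Function.ne_iff.1 hx
          obtain ⟨i, rfl⟩ : ∃ i : Fin n, l = i.succ := by
            rcases Fin.eq_zero_or_eq_succ l with h | ⟨i, h⟩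
            · rw [h] at hl; exact absurd h0.1 hl
            · exact ⟨i, h⟩
          have h1 : Uv (simU n ξ) x i = - iot (x i.succ) := by
            rw [sim_apply, h0.1, map_zero, mul_zero, zero_sub]
          have h2 : Uv (simU n ξ) x i ≠ 0 := by
            rw [h1, neg_ne_zero, Ne, iot_eq_zero]; exact hl
          have h3 : (0 : ℤ) ≤ dg (Uv (simU n ξ) x i) := by
            rw [h1]
            have : dg (- iot (x i.succ)) = dg (iot (x i.succ)) := by
              simp [dg]
            rw [this, dg_iot hl]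
            positivity
          have h4 := le_vdeg h2
          have h5 : (0 : ℝ) ≤ vdeg (Uv (simU n ξ) x) := by exact_mod_cast h3.trans h4
          nlinarith [mul_nonneg hC h6]
        · -- Liouville for the first coordinate
          let y : Fin (1 + 1) → k[X] := ![-x i₀.succ, x 0]
          have hy : y ≠ 0 := by
            intro h
            apply h0
            have e0 := congrFun h 0
            have e1 := congrFun h 1
            simp [y] at e0 e1
            exact ⟨e1, e0⟩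
          have h1 : ev ξ (Helper92.FR.toP y) = Uv (simU n ξ) x i₀ := by
            rw [ev, Helper92.FR.toP_ev y ξ (), sim_apply, Uv, Matrix.mulVec, dotProduct,
              Fin.sum_univ_two]
            simp [y, rowU, i₀]
            ring
          have h2 : ev ξ (Helper92.FR.toP y) ≠ 0 := by
            intro h
            have h3 := hmin _ (toP_ne_zero hy) h
            have h4 := Helper92.FR.toP_natDegree y
            omega
          have h3 := hc (Helper92.FR.toP y) (Helper92.FR.toP_natDegree y) h2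
          rw [h1] at h2 h3
          have h4 : ((dg (Uv (simU n ξ) x i₀) : ℤ) : ℝ) ≤ vdeg (Uv (simU n ξ) x) := by
            exact_mod_cast le_vdeg h2
          have h5 : ((Hp (Helper92.FR.toP y) : ℕ) : ℝ) ≤ hgt x := by
            have h9 : hgt y ≤ hgt x := by
              apply Finset.sup_le
              intro i _
              fin_cases i
              · simp only [y, Fin.zero_eta, Matrix.cons_val_zero, natDegree_neg]
                exact Finset.le_sup (f := fun i => (x i).natDegree) (Finset.mem_univ _)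
              · simp only [y, Fin.mk_one, Matrix.cons_val_one]
                exact Finset.le_sup (f := fun i => (x i).natDegree) (Finset.mem_univ _)
            exact_mod_cast (Hp_le_hgt y).trans h9
          nlinarith [mul_nonneg hd' (sub_nonneg.2 h5), mul_nonneg h8 h6])
    obtain ⟨A, Γ, hA, hΓ, hrel⟩ := Helper6.FR.r2 k p s ξ hHQ n
    obtain ⟨ρ, hρ⟩ := A_final k p s hs (Fin (n + 1)) (Fin n) (simU n ξ) A Γ hA hΓ hrel hnv w hw0
      hinf hfin
    exact ⟨ρ, by rw [hw, hρ]⟩

end Pool.Agent.Helper20.FR
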