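import Pool.Agent.Helper20.FR.Spec

open Polynomial Filter

namespace Pool.Agent.Helper20.FR

universe u

lemma typ_le {N E : Type} {κ : ℕ} (f : Fin κ → N ⊕ E) : typ f ≤ κ := by
  unfold typ
  exact (Finset.card_filter_le _ _).trans (by simp)

lemma tendsto_rpow (r : ℕ) (hr : 2 ≤ r) : Tendsto (fun j : ℕ => ((r : ℝ)) ^ j) atTop atTop :=
  tendsto_pow_atTop_atTop_of_one_lt (by exact_mod_cast (show 1 < r by omega))

theorem A_thm (hCS : S_CS.{u}) (hNS : S_NS.{u}) (hCNT : S_CNT.{u}) (hTYP : S_TYP.{u})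
    (hUB : S_UB.{u}) (hLB : S_LB.{u}) (hMK : S_MK.{u}) (hTN : S_TN) : S_A.{u} := by
  classical
  intro k _ _ p _ _ s hs N E _ _ _ _ U A Γ hA hΓ hrel hnv w hw hinf hfin
  have hp2 : 2 ≤ p := (Fact.out : p.Prime).two_le
  have hr : 2 ≤ p ^ s := hp2.trans (by
    calc p = p ^ 1 := (pow_one p).symm
      _ ≤ p ^ s := Nat.pow_le_pow_right (by omega) hs)
  obtain ⟨σ₀, hσ₀, hne⟩ := hCS k N E U (p ^ s) hr w hinf
  obtain ⟨σ, κ, Y, hσ, hκ, hrec, hLI, hnear⟩ := hNS k p s hs N E U A Γ hA hrel σ₀ w hσ₀ hne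
  obtain ⟨c, q, hcq, gc, Cc, hCc⟩ := hCNT k p s hs N A hA κ Y hrec (hLI 0)
  have hT := hTYP k p s hs N E U A Γ hA hΓ hrel κ Y hrec
  set r : ℕ := p ^ s with hrdef
  have hr0 : (0 : ℝ) < r := by exact_mod_cast (show 0 < r by omega)
  have hrp : ∀ j : ℕ, (0 : ℝ) < (r : ℝ) ^ j := fun j => pow_pos hr0 j
  let I : Finset ℕ := (Finset.range (κ + 1)).filter fun i => ¬ ∀ j, msk U i (Y j) = 0
  have hex : ∀ i : ℕ, ∃ g : ℚ, i ∈ I → ((∀ j, msk U i (Y j) ≠ 0) ∧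
      ∃ C : ℝ, ∀ j, |((vdeg (msk U i (Y j)) : ℤ) : ℝ) - (g : ℝ) * (r : ℝ) ^ j| ≤ C) := by
    intro i
    by_cases hi : i ∈ I
    · have h1 : ¬ ∀ j, msk U i (Y j) = 0 := (Finset.mem_filter.1 hi).2
      rcases hT i with h2 | ⟨h2, g, hg⟩
      · exact absurd h2 h1
      · exact ⟨g, fun _ => ⟨h2, hg⟩⟩
    · exact ⟨0, fun h => absurd h hi⟩
  choose gv hgv using hex
  refine hTN κ hκ I (fun i => gv i - gc) w σ hw hσ ?_ ?_
  · -- upper bound
    intro i hi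
    obtain ⟨hne', C, hC⟩ := hgv i hi
    have hiκ : i ≤ κ := by
      have := (Finset.mem_filter.1 hi).1
      simp at this; omega
    by_contra hcon
    push Not at hcon
    have hκ0 : (0 : ℝ) < κ := by exact_mod_cast (show 0 < κ by omega)
    set δ : ℝ := (i : ℝ) * ((1 + w) * σ) + ((gv i - gc : ℚ) : ℝ) - κ * σ with hδ
    have hδ0 : 0 < δ := by linarith
    have h1 := hnear (δ / (2 * κ)) (by positivity)
    have h2 : ∀ᶠ j in atTop, (C + Cc) * 2 / δ < (r : ℝ) ^ j :=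
      (tendsto_rpow r hr).eventually_gt_atTop _
    obtain ⟨j, ⟨Z, a, Q, ha, hQ, hZQ, hG⟩, hj⟩ := (h1.and h2).exists
    have h3 := hUB k N E U κ (Y j) Z (c j) a (q j) Q (hcq j).1 (hcq j).2.1 (hcq j).2.2 ha hQ hZQ
      _ _ (fun b => (hG b).1) (fun b => (hG b).2)
    have h4 : VLe (msk U i (Y j)) ((c j).natDegree +
        ((κ : ℝ) - i) * ((σ + δ / (2 * κ)) * (r : ℝ) ^ j) +
        (i : ℝ) * (-(w * σ - δ / (2 * κ)) * (r : ℝ) ^ j)) := by
      intro f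
      unfold msk
      split_ifs with hf
      · have := h3 f
        rw [hf] at this
        exact this
      · exact DLe_zero _
    rw [VLe_iff (hne' j)] at h4
    have h5 := abs_le.1 (hC j)
    have h6 := abs_le.1 (hCc j)
    have h7 : (gv i : ℝ) * (r : ℝ) ^ j - C - gc * (r : ℝ) ^ j - Cc ≤
        (((κ : ℝ) - i) * (σ + δ / (2 * κ)) + (i : ℝ) * (-(w * σ - δ / (2 * κ)))) *
          (r : ℝ) ^ j := by
      push_cast at h6
      nlinarith [h4, h5.1, h6.2]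
    have h8 : ((κ : ℝ) - i) * (σ + δ / (2 * κ)) + (i : ℝ) * (-(w * σ - δ / (2 * κ))) =
        κ * σ - i * ((1 + w) * σ) + δ / 2 := by
      field_simp
      ring
    rw [h8] at h7
    have h9 : δ / 2 * (r : ℝ) ^ j ≤ C + Cc := by
      have : δ = (i : ℝ) * ((1 + w) * σ) + ((gv i : ℝ) - gc) - κ * σ := by
        rw [hδ]; push_cast; ring
      have h10 : (gv i : ℝ) - gc = δ - (i : ℝ) * ((1 + w) * σ) + κ * σ := by rw [this]; ring
      have h11 : ((gv i : ℝ) - gc) * (r : ℝ) ^ j - (C + Cc) ≤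
          (κ * σ - i * ((1 + w) * σ) + δ / 2) * (r : ℝ) ^ j := by linarith
      rw [h10] at h11
      nlinarith
    rw [div_lt_iff₀ hδ0] at hj
    nlinarith
  · -- lower bound
    intro τ hτ w' hw'
    by_contra hcon
    push Not at hcon
    obtain ⟨T₀, hT₀⟩ := hLB k N E U w hw hnv hfin w' hw'
    have hw'0 : 0 < 1 + w' := by linarith
    have h1 : ∀ i ∈ I, ∀ᶠ j in atTop, ∀ C : ℝ,
        (∀ j, |((vdeg (msk U i (Y j)) : ℤ) : ℝ) - (gv i : ℝ) * (r : ℝ) ^ j| ≤ C) →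
        C + Cc + κ < (κ * τ / (1 + w') - ((i : ℝ) * τ + ((gv i - gc : ℚ) : ℝ))) * (r : ℝ) ^ j ∨
          ∃ C' : ℝ, (∀ j, |((vdeg (msk U i (Y j)) : ℤ) : ℝ) - (gv i : ℝ) * (r : ℝ) ^ j| ≤ C') ∧
          C' + Cc + κ < (κ * τ / (1 + w') - ((i : ℝ) * τ + ((gv i - gc : ℚ) : ℝ))) *
            (r : ℝ) ^ j := by
      intro i hi
      obtain ⟨-, C', hC'⟩ := hgv i hi
      have hpos : 0 < κ * τ / (1 + w') - ((i : ℝ) * τ + ((gv i - gc : ℚ) : ℝ)) := by
        have := hcon i hi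
        linarith
      have h2 := (tendsto_rpow r hr).eventually_gt_atTop
        ((C' + Cc + κ) / (κ * τ / (1 + w') - ((i : ℝ) * τ + ((gv i - gc : ℚ) : ℝ))))
      filter_upwards [h2] with j hj C hC
      right
      refine ⟨C', hC', ?_⟩
      rw [div_lt_iff₀ hpos] at hj
      linarith
    have h2 : ∀ᶠ j in atTop, ∀ i ∈ I, ∃ C' : ℝ,
        (∀ j, |((vdeg (msk U i (Y j)) : ℤ) : ℝ) - (gv i : ℝ) * (r : ℝ) ^ j| ≤ C') ∧
          C' + Cc + κ < (κ * τ / (1 + w') - ((i : ℝ) * τ + ((gv i - gc : ℚ) : ℝ))) *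
            (r : ℝ) ^ j := by
      rw [Filter.eventually_all_finset]
      intro i hi
      filter_upwards [h1 i hi] with j hj
      obtain ⟨-, C, hC⟩ := hgv i hi
      rcases hj C hC with h | h
      · exact ⟨C, hC, h⟩
      · exact h
    have h3 : ∀ᶠ j : ℕ in atTop, ((T₀ : ℝ) + 1) / τ < (r : ℝ) ^ j :=
      (tendsto_rpow r hr).eventually_gt_atTop _
    obtain ⟨j, hj1, hj2⟩ := (h2.and h3).exists
    rw [div_lt_iff₀ hτ] at hj2
    set t : ℤ := ⌊τ * (r : ℝ) ^ j⌋ with ht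
    have ht1 : (t : ℝ) ≤ τ * (r : ℝ) ^ j := Int.floor_le _
    have ht2 : τ * (r : ℝ) ^ j - 1 < t := Int.sub_one_lt_floor _
    have htT : T₀ ≤ t := by
      have : (T₀ : ℝ) < t := by nlinarith
      exact_mod_cast this.le
    obtain ⟨f, hf, hθ⟩ := hMK k N E U κ (Y j) (c j) (q j) (hLI j) (hcq j).1 (hcq j).2.1
      (hcq j).2.2 t (t / (1 + w')) (fun x hx => hT₀ t htT x hx)
    have hm : msk U (typ f) (Y j) f = mnr (big U (Y j)) f := by simp [msk]
    have hiI : typ f ∈ I := by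
      rw [Finset.mem_filter]
      refine ⟨by have := typ_le f; simp; omega, ?_⟩
      intro h
      have := congrFun (h j) f
      rw [hm] at this
      exact hf this
    obtain ⟨C', hC', hlt⟩ := hj1 _ hiI
    have h5 : (dg (mnr (big U (Y j)) f) : ℝ) ≤ vdeg (msk U (typ f) (Y j)) := by
      have := VLe_self (msk U (typ f) (Y j)) f
      rw [hm, DLe_iff hf] at this
      exact this
    have h6 := abs_le.1 (hC' j)
    have h7 := abs_le.1 (hCc j)
    push_cast at h7 hlt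
    have hi0 : (0 : ℝ) ≤ typ f := Nat.cast_nonneg _
    have hκ0 : (0 : ℝ) ≤ κ := Nat.cast_nonneg _
    have h8 : (κ : ℝ) * (τ * (r : ℝ) ^ j) / (1 + w') - κ ≤ κ * (t / (1 + w')) := by
      have h9 : (κ : ℝ) * (τ * (r : ℝ) ^ j) / (1 + w') - κ * (t / (1 + w')) =
          κ * ((τ * (r : ℝ) ^ j - t) / (1 + w')) := by ring
      have h10 : (τ * (r : ℝ) ^ j - t) / (1 + w') ≤ 1 := by
        rw [div_le_one hw'0]; linarith
      nlinarith
    have h9 : (typ f : ℝ) * t ≤ typ f * (τ * (r : ℝ) ^ j) := mul_le_mul_of_nonneg_left ht1 hi0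
    have h10 : (κ : ℝ) * (τ * (r : ℝ) ^ j) / (1 + w') = κ * τ / (1 + w') * (r : ℝ) ^ j := by ring
    rw [h10] at h8
    nlinarith [h5, h6.2, h7.1, h8, h9, hθ, hlt]

end Pool.Agent.Helper20.FR
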