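import Pool.Agent.Helper20.FR.Spec

open Polynomial Filter

namespace Pool.Agent.Helper20.FR

universe u

/-- linearly independent columns have a nonzero maximal minor -/
lemma mn_field {F : Type*} [Field F] {ι : Type} [Fintype ι] {κ : ℕ} (Y : Matrix ι (Fin κ) F)
    (h : LinearIndependent F fun b : Fin κ => (fun i => Y i b)) :
    ∃ f : Fin κ → ι, (Matrix.of fun a b => Y (f a) b : Matrix (Fin κ) (Fin κ) F).det ≠ 0 := by
  have h1 : Y.rank = κ := by
    have h2 : (Y.transpose).rank = Fintype.card (Fin κ) := by
      apply LinearIndependent.rank_matrix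
      exact h
    rw [← Matrix.rank_transpose, h2, Fintype.card_fin]
  rw [Matrix.rank_eq_finrank_span_row] at h1
  obtain ⟨κ', a, ha, hsp, hli⟩ := exists_linearIndependent' F Y.row
  have hfin : Finite κ' := hli.finite
  cases nonempty_fintype κ'
  have hcard : Fintype.card κ' = κ := by
    have h3 := finrank_span_eq_card hli
    rw [hsp] at h3
    exact h3.symm.trans h1
  let e : Fin κ ≃ κ' := (Fintype.equivFinOfCardEq hcard).symm
  refine ⟨fun b => a (e b), ?_⟩
  have h4 : LinearIndependent F (Matrix.of fun a' b => Y (a (e a')) b :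
      Matrix (Fin κ) (Fin κ) F).row := hli.comp e e.injective
  rw [Matrix.linearIndependent_rows_iff_isUnit, Matrix.isUnit_iff_isUnit_det] at h4
  exact h4.ne_zero

/-- constant coefficients -/
lemma coeff_zero_mul {k : Type*} [Field k] {z w : LaurentSeries k} (hz : DLe z 0) (hw : DLe w 0) :
    (z * w).coeff 0 = z.coeff 0 * w.coeff 0 := by
  have key : ∀ {z : LaurentSeries k}, DLe z 0 → DLe (z - HahnSeries.C (z.coeff 0)) (-1) := by
    intro z hz n hn
    have hn' : n < 1 := by
      have : (n : ℝ) < 1 := by simpa using hn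
      exact_mod_cast this
    have hn'' : n ≤ 0 := by omega
    rcases lt_or_eq_of_le hn'' with h | h
    · rw [HahnSeries.coeff_sub, hz n (by have : (n : ℝ) < 0 := by exact_mod_cast h
                                         simpa using this)]
      rw [HahnSeries.C_apply, HahnSeries.coeff_single_of_ne h.ne, sub_zero]
    · subst h
      simp
  have h1 := key hz
  have h2 := key hw
  have hC : DLe (HahnSeries.C (w.coeff 0) : LaurentSeries k) 0 := by
    intro n hn
    have : (n : ℝ) < 0 := by simpa using hn
    have : n < 0 := by exact_mod_cast this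
    rw [HahnSeries.C_apply, HahnSeries.coeff_single_of_ne this.ne]
  have h3 : z * w - HahnSeries.C (z.coeff 0 * w.coeff 0) =
      z * (w - HahnSeries.C (w.coeff 0)) + (z - HahnSeries.C (z.coeff 0)) *
        HahnSeries.C (w.coeff 0) := by
    rw [map_mul]; ring
  have h4 : DLe (z * w - HahnSeries.C (z.coeff 0 * w.coeff 0)) (-1) := by
    rw [h3]
    apply DLe.add
    · have := hz.mul h2
      simpa using this
    · have := h1.mul hC
      simpa using this
  have h5 := h4 0 (by norm_num)
  rw [HahnSeries.coeff_sub] at h5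
  simp at h5
  exact (sub_eq_zero.1 h5)

lemma DLe_prod_zero {k : Type*} [Field k] {ι : Type*} (s : Finset ι) {f : ι → LaurentSeries k}
    (h : ∀ i ∈ s, DLe (f i) 0) : DLe (∏ i ∈ s, f i) 0 := by
  have := DLe.prod s (d := fun _ => (0 : ℝ)) h
  simpa using this

lemma coeff_zero_prod {k : Type*} [Field k] {ι : Type*} (s : Finset ι) {f : ι → LaurentSeries k}
    (h : ∀ i ∈ s, DLe (f i) 0) : (∏ i ∈ s, f i).coeff 0 = ∏ i ∈ s, (f i).coeff 0 := by
  classical
  induction s using Finset.induction_on with
  | empty => simp
  | insert a s ha ih =>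
    rw [Finset.prod_insert ha, Finset.prod_insert ha, coeff_zero_mul (h a (by simp))
      (DLe_prod_zero s fun i hi => h i (by simp [hi])), ih fun i hi => h i (by simp [hi])]

lemma coeff_zero_det {k : Type*} [Field k] {κ : ℕ} (M : Matrix (Fin κ) (Fin κ) (LaurentSeries k))
    (h : ∀ a b, DLe (M a b) 0) :
    M.det.coeff 0 = (Matrix.of fun a b => (M a b).coeff 0 : Matrix (Fin κ) (Fin κ) k).det := by
  rw [Matrix.det_apply, Matrix.det_apply, HahnSeries.coeff_sum]
  apply Finset.sum_congr rfl
  intro σ _
  rcases Int.units_eq_one_or (Equiv.Perm.sign σ) with h2 | h2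
  · rw [h2, one_smul, one_smul, coeff_zero_prod _ fun i _ => h _ _]
    rfl
  · rw [h2, Units.neg_smul, Units.neg_smul, one_smul, one_smul, HahnSeries.coeff_neg,
      coeff_zero_prod _ fun i _ => h _ _]
    rfl

end Pool.Agent.Helper20.FR
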