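import Pool.Agent.Helper20.FR.Base

/-! Statements of the parts. -/

open Polynomial Filter

namespace Pool.Agent.Helper20.FR

universe u

/-! ### definitions -/

/-- `a j = g r^j + O(1)` with `g` rational -/
def RatGrowth (r : ℕ) (a : ℕ → ℤ) (g : ℚ) : Prop :=
  ∃ C : ℝ, ∀ j, |(a j : ℝ) - (g : ℝ) * (r : ℝ) ^ j| ≤ C

/-- the tuple with rows chosen by `f` -/
noncomputable def mnr {ι : Type} {S : Type u} [CommRing S] {κ : ℕ} (Y : Matrix ι (Fin κ) S)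
    (f : Fin κ → ι) : S := (Matrix.of fun a b => Y (f a) b).det

/-- the `κ`-th tensor power of a matrix -/
def kpow {ι ι' : Type} {S : Type u} [CommRing S] (κ : ℕ) (M : Matrix ι' ι S) :
    Matrix (Fin κ → ι') (Fin κ → ι) S := Matrix.of fun f g => ∏ a, M (f a) (g a)

/-- number of rows of `f` in the second block -/
def typ {N E : Type} {κ : ℕ} (f : Fin κ → N ⊕ E) : ℕ :=
  (Finset.univ.filter fun a => (f a).isRight).card

section

variable {k : Type u} [Field k] {N E : Type}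

/-- the vector `U x`, `x ∈ k[T]^N` -/
noncomputable def Uv [Fintype N] (U : Matrix E N (LaurentSeries k)) (x : N → k[X]) :
    E → LaurentSeries k := U.mulVec fun i => iot (x i)

/-- the matrix with blocks `X` and `U X` -/
noncomputable def big [Fintype N] (U : Matrix E N (LaurentSeries k)) {κ : ℕ}
    (X : Matrix N (Fin κ) k[X]) : Matrix (N ⊕ E) (Fin κ) (LaurentSeries k) :=
  Matrix.of fun a b => Sum.elim (fun i => iot (X i b)) (Uv U fun i => X i b) a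

/-- the vector of the minors of type `i` -/
noncomputable def msk [Fintype N] (U : Matrix E N (LaurentSeries k)) {κ : ℕ} (i : ℕ)
    (X : Matrix N (Fin κ) k[X]) : (Fin κ → N ⊕ E) → LaurentSeries k :=
  fun f => if typ f = i then mnr (big U X) f else 0

/-- `(x, T^t U x)` -/
noncomputable def Lt [Fintype N] (U : Matrix E N (LaurentSeries k)) (t : ℤ) (x : N → k[X]) :
    N ⊕ E → LaurentSeries k :=
  Sum.elim (fun i => iot (x i)) fun e => Tz t * Uv U x e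

/-- a primitive vector -/
def Prim {F : Type} (q : F → k[X]) : Prop := ∀ c : k[X], (∀ f, c ∣ q f) → IsUnit c

/-- the height (maximal degree) -/
def hgt [Fintype N] (x : N → k[X]) : ℕ := Finset.univ.sup fun i => (x i).natDegree

/-- `x` in the box of level `j` with parameters `σ, w, ε` -/
def GG [Fintype N] (U : Matrix E N (LaurentSeries k)) (r : ℕ) (σ w ε : ℝ) (j : ℕ)
    (x : N → k[X]) : Prop :=
  VLe (fun i => iot (x i)) ((σ + ε) * (r : ℝ) ^ j) ∧ VLe (Uv U x) (-(w * σ - ε) * (r : ℝ) ^ j)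

/-- the columns of `X` are linearly independent over `k[T]` -/
def LI {κ : ℕ} (X : Matrix N (Fin κ) k[X]) : Prop :=
  LinearIndependent k[X] fun b : Fin κ => (fun i => X i b : N → k[X])

end

/-! ### the parts -/

/-- P1: rational growth from a shift identity -/
def S_FS : Prop := ∀ (r : ℕ), 2 ≤ r → ∀ (a : ℕ → ℤ) (i P : ℕ), 0 < P →
  (∀ l, a (i + P + l) - a (i + l) = (r : ℤ) ^ l * (a (i + P) - a i)) → ∃ g : ℚ, RatGrowth r a g

/-- P2: Frobenius-linear recursion over `K`: rational growth of the degree -/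
def S_KP : Prop := ∀ (k : Type u) [Field k] [Finite k] (p : ℕ) [Fact p.Prime] [CharP k p]
  (s : ℕ), 1 ≤ s → ∀ (F : Type) [Fintype F] [DecidableEq F] (B B' : Matrix F F (LaurentSeries k))
  (v : ℕ → F → LaurentSeries k),
  (∀ j, v (j + 1) = B.mulVec fun f => v j f ^ p ^ s) →
  (∀ j, B'.mulVec (v (j + 1)) = fun f => v j f ^ p ^ s) → v 0 ≠ 0 →
  (∀ j, v j ≠ 0) ∧ ∃ g : ℚ, RatGrowth (p ^ s) (fun j => vdeg (v j)) g

/-- P3: Frobenius-linear recursion over `k[T]`: rational growth of the content -/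
def S_RP : Prop := ∀ (k : Type u) [Field k] [Finite k] (p : ℕ) [Fact p.Prime] [CharP k p]
  (s : ℕ), 1 ≤ s → ∀ (F : Type) [Fintype F] [DecidableEq F] (B B' : Matrix F F k[X])
  (δ : k[X]), δ ≠ 0 → B' * B = δ • (1 : Matrix F F k[X]) → ∀ u : ℕ → F → k[X],
  (∀ j, u (j + 1) = B.mulVec fun f => u j f ^ p ^ s) → u 0 ≠ 0 →
  ∃ (c : ℕ → k[X]) (q : ℕ → F → k[X]), (∀ j, c j ≠ 0 ∧ Prim (q j) ∧ u j = c j • q j) ∧
    ∃ g : ℚ, RatGrowth (p ^ s) (fun j => ((c j).natDegree : ℤ)) g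

/-- P4a: minors of a product -/
def S_PLa : Prop := ∀ (S : Type u) [CommRing S] (ι ι' : Type) [Fintype ι] [DecidableEq ι]
  (κ : ℕ) (M : Matrix ι' ι S) (Y : Matrix ι (Fin κ) S) (f : Fin κ → ι'),
  mnr (M * Y) f = ∑ g : Fin κ → ι, kpow κ M f g * mnr Y g

/-- P4b: tensor powers are multiplicative -/
def S_PLb : Prop := ∀ (S : Type u) [CommRing S] (ι ι' ι'' : Type) [Fintype ι] [DecidableEq ι]
  (κ : ℕ) (M : Matrix ι' ι S) (M' : Matrix ι ι'' S),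
  kpow κ (M * M') = kpow κ M * kpow κ M'

/-- P4c -/
def S_PLc : Prop := ∀ (S : Type u) [CommRing S] (ι : Type) [Fintype ι] [DecidableEq ι]
  (κ : ℕ) (c : S), kpow κ (c • (1 : Matrix ι ι S)) = c ^ κ • (1 : Matrix (Fin κ → ι) (Fin κ → ι) S)

/-- P4d: linear independence and minors -/
def S_MN : Prop := ∀ (k : Type u) [Field k] (N : Type) [Fintype N] [DecidableEq N] (κ : ℕ)
  (Y : Matrix N (Fin κ) k[X]), LI Y ↔ ∃ f : Fin κ → N, mnr Y f ≠ 0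

/-- P5: growth of the minors of type `i` -/
def S_TYP : Prop := ∀ (k : Type u) [Field k] [Finite k] (p : ℕ) [Fact p.Prime] [CharP k p]
  (s : ℕ), 1 ≤ s → ∀ (N E : Type) [Fintype N] [DecidableEq N] [Fintype E] [DecidableEq E]
  (U : Matrix E N (LaurentSeries k)) (A : Matrix N N k[X]) (Γ : Matrix E E (LaurentSeries k)),
  A.det ≠ 0 → Γ.det ≠ 0 → U * A.map iot = Γ * U.map (fun z => z ^ p ^ s) →
  ∀ (κ : ℕ) (Y : ℕ → Matrix N (Fin κ) k[X]),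
  (∀ j, Y (j + 1) = A * (Y j).map fun z => z ^ p ^ s) → ∀ i : ℕ,
  (∀ j, msk U i (Y j) = 0) ∨
    ((∀ j, msk U i (Y j) ≠ 0) ∧ ∃ g : ℚ, RatGrowth (p ^ s) (fun j => vdeg (msk U i (Y j))) g)

/-- P6: growth of the content -/
def S_CNT : Prop := ∀ (k : Type u) [Field k] [Finite k] (p : ℕ) [Fact p.Prime] [CharP k p]
  (s : ℕ), 1 ≤ s → ∀ (N : Type) [Fintype N] [DecidableEq N] (A : Matrix N N k[X]), A.det ≠ 0 →
  ∀ (κ : ℕ) (Y : ℕ → Matrix N (Fin κ) k[X]),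
  (∀ j, Y (j + 1) = A * (Y j).map fun z => z ^ p ^ s) → LI (Y 0) →
  ∃ (c : ℕ → k[X]) (q : ℕ → (Fin κ → N) → k[X]),
    (∀ j, c j ≠ 0 ∧ Prim (q j) ∧ ∀ f : Fin κ → N, mnr (Y j) f = c j * q j f) ∧
    ∃ g : ℚ, RatGrowth (p ^ s) (fun j => ((c j).natDegree : ℤ)) g

/-- P7: Minkowski's second theorem, one half, for the lattice `k[T]^N ∩ span Y` -/
def S_MK : Prop := ∀ (k : Type u) [Field k] (N E : Type) [Fintype N] [DecidableEq N]
  [Fintype E] [DecidableEq E] (U : Matrix E N (LaurentSeries k)) (κ : ℕ)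
  (Y : Matrix N (Fin κ) k[X]) (c : k[X]) (q : (Fin κ → N) → k[X]), LI Y → c ≠ 0 → Prim q →
  (∀ f : Fin κ → N, mnr Y f = c * q f) → ∀ (t : ℤ) (θ : ℝ),
  (∀ x : N → k[X], x ≠ 0 → θ ≤ vdeg (Lt U t x)) →
  ∃ f : Fin κ → N ⊕ E, mnr (big U Y) f ≠ 0 ∧
    κ * θ ≤ (typ f : ℝ) * t + dg (mnr (big U Y) f) - c.natDegree

/-- P8: the space spanned by the near-optimal vectors, and its Frobenius orbit -/
def S_NS : Prop := ∀ (k : Type u) [Field k] [Finite k] (p : ℕ) [Fact p.Prime] [CharP k p]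
  (s : ℕ), 1 ≤ s → ∀ (N E : Type) [Fintype N] [DecidableEq N] [Fintype E] [DecidableEq E]
  (U : Matrix E N (LaurentSeries k)) (A : Matrix N N k[X]) (Γ : Matrix E E (LaurentSeries k)),
  A.det ≠ 0 → U * A.map iot = Γ * U.map (fun z => z ^ p ^ s) →
  ∀ σ w : ℝ, 0 < σ →
  (∀ ε > 0, ∃ᶠ j in atTop, ∃ x : N → k[X], x ≠ 0 ∧ GG U (p ^ s) σ w ε j x) →
  ∃ (σ' : ℝ) (κ : ℕ) (Y : ℕ → Matrix N (Fin κ) k[X]), 0 < σ' ∧ 1 ≤ κ ∧
    (∀ j, Y (j + 1) = A * (Y j).map fun z => z ^ p ^ s) ∧ (∀ j, LI (Y j)) ∧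
    ∀ ε > 0, ∀ᶠ j in atTop, ∃ (Z : Matrix N (Fin κ) k[X]) (a : k[X])
      (Q : Matrix (Fin κ) (Fin κ) k[X]), a ≠ 0 ∧ Q.det ≠ 0 ∧ a • Z = Y j * Q ∧
      ∀ b, GG U (p ^ s) σ' w ε j fun i => Z i b

/-- P9: a limit scale -/
def S_CS : Prop := ∀ (k : Type u) [Field k] [Finite k] (N E : Type) [Fintype N] [Fintype E]
  (U : Matrix E N (LaurentSeries k)) (r : ℕ), 2 ≤ r → ∀ w : ℝ,
  (∀ w' < w, {x : N → k[X] | x ≠ 0 ∧ VLe (Uv U x) (-w' * hgt x)}.Infinite) →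
  ∃ σ : ℝ, 0 < σ ∧ ∀ ε > 0, ∃ᶠ j in atTop, ∃ x : N → k[X], x ≠ 0 ∧ GG U r σ w ε j x

/-- P10: upper bound for the minors -/
def S_UB : Prop := ∀ (k : Type u) [Field k] (N E : Type) [Fintype N] [DecidableEq N]
  [Fintype E] [DecidableEq E] (U : Matrix E N (LaurentSeries k)) (κ : ℕ)
  (Y Z : Matrix N (Fin κ) k[X]) (c a : k[X]) (q : (Fin κ → N) → k[X])
  (Q : Matrix (Fin κ) (Fin κ) k[X]), c ≠ 0 → Prim q → (∀ f : Fin κ → N, mnr Y f = c * q f) →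
  a ≠ 0 → Q.det ≠ 0 → a • Z = Y * Q → ∀ α β : ℝ,
  (∀ b, VLe (fun i => iot (Z i b)) α) → (∀ b, VLe (Uv U fun i => Z i b) β) →
  ∀ f : Fin κ → N ⊕ E,
    DLe (mnr (big U Y) f) (c.natDegree + ((κ : ℝ) - typ f) * α + (typ f : ℝ) * β)

/-- P11: lower bound for the norms `N_t` -/
def S_LB : Prop := ∀ (k : Type u) [Field k] (N E : Type) [Fintype N] [Fintype E]
  (U : Matrix E N (LaurentSeries k)) (w : ℝ), 0 ≤ w → (∀ x : N → k[X], x ≠ 0 → Uv U x ≠ 0) →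
  (∀ w' > w, {x : N → k[X] | x ≠ 0 ∧ VLe (Uv U x) (-w' * hgt x)}.Finite) →
  ∀ w' > w, ∃ T₀ : ℤ, ∀ t ≥ T₀, ∀ x : N → k[X], x ≠ 0 → (t : ℝ) / (1 + w') ≤ vdeg (Lt U t x)

/-- P12: a convex piecewise linear function with a tangent line -/
def S_TN : Prop := ∀ (κ : ℕ), 1 ≤ κ → ∀ (I : Finset ℕ) (g : ℕ → ℚ) (w σ : ℝ), 0 ≤ w → 0 < σ →
  (∀ i ∈ I, (i : ℝ) * ((1 + w) * σ) + g i ≤ κ * σ) →
  (∀ τ > 0, ∀ w' > w, ∃ i ∈ I, κ * τ / (1 + w') ≤ (i : ℝ) * τ + g i) →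
  ∃ ρ : ℚ, (ρ : ℝ) = w

/-- P13: the abstract theorem -/
def S_A : Prop := ∀ (k : Type u) [Field k] [Finite k] (p : ℕ) [Fact p.Prime] [CharP k p]
  (s : ℕ), 1 ≤ s → ∀ (N E : Type) [Fintype N] [DecidableEq N] [Fintype E] [DecidableEq E]
  (U : Matrix E N (LaurentSeries k)) (A : Matrix N N k[X]) (Γ : Matrix E E (LaurentSeries k)),
  A.det ≠ 0 → Γ.det ≠ 0 → U * A.map iot = Γ * U.map (fun z => z ^ p ^ s) →
  (∀ x : N → k[X], x ≠ 0 → Uv U x ≠ 0) → ∀ w : ℝ, 0 ≤ w →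
  (∀ w' < w, {x : N → k[X] | x ≠ 0 ∧ VLe (Uv U x) (-w' * hgt x)}.Infinite) →
  (∀ w' > w, {x : N → k[X] | x ≠ 0 ∧ VLe (Uv U x) (-w' * hgt x)}.Finite) →
  ∃ ρ : ℚ, (ρ : ℝ) = w

/-! ### applications -/

/-- the matrix of `X^l ↦ (a X + b)^l (c X + d)^(n-l)` in the basis `1, X, …, X^n` -/
noncomputable def Sy {k : Type u} [Field k] (n : ℕ) (a b c d : k[X]) :
    Matrix (Fin (n + 1)) (Fin (n + 1)) k[X] :=
  Matrix.of fun i l =>
    ((Polynomial.C a * Polynomial.X + Polynomial.C b : k[X][X]) ^ (l : ℕ) *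
      (Polynomial.C c * Polynomial.X + Polynomial.C d) ^ (n - (l : ℕ))).coeff (i : ℕ)

/-- P14 -/
def S_SY : Prop := ∀ (k : Type u) [Field k] (n : ℕ) (a b c d : k[X]), a * d - b * c ≠ 0 →
  (Sy n a b c d).det ≠ 0

/-- the value of a polynomial over `k[T]` at `ξ ∈ K` -/
noncomputable def ev {k : Type u} [Field k] (ξ : LaurentSeries k) (P : k[X][X]) :
    LaurentSeries k := P.eval₂ iot ξ

/-- the row `(1, ξ, …, ξ^n)` -/
noncomputable def rowU {k : Type u} [Field k] (n : ℕ) (ξ : LaurentSeries k) :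
    Matrix Unit (Fin (n + 1)) (LaurentSeries k) := Matrix.of fun _ i => ξ ^ (i : ℕ)

/-- the rows `x ↦ x₀ ξ^i - x_i`, `i = 1, …, n` -/
noncomputable def simU {k : Type u} [Field k] (n : ℕ) (ξ : LaurentSeries k) :
    Matrix (Fin n) (Fin (n + 1)) (LaurentSeries k) :=
  Matrix.of fun i l => if (l : ℕ) = 0 then ξ ^ ((i : ℕ) + 1) else if (l : ℕ) = i + 1 then -1 else 0

/-- `ξ` satisfies `ξ = (A ξ^r + B) / (C ξ^r + D)` with `r` a power of the characteristic, `r > 1` -/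
def HQ {k : Type u} [Field k] (r : ℕ) (ξ : LaurentSeries k) : Prop :=
  ∃ A B C D : k[X], A * D - B * C ≠ 0 ∧
    ξ * (iot C * ξ ^ r + iot D) = iot A * ξ ^ r + iot B

/-- P15: Frobenius relation for the row `(1, ξ, …, ξ^n)` -/
def S_R1 : Prop := ∀ (k : Type u) [Field k] (r : ℕ) (ξ : LaurentSeries k), HQ r ξ → ∀ n : ℕ,
  ∃ (A : Matrix (Fin (n + 1)) (Fin (n + 1)) k[X]) (Γ : Matrix Unit Unit (LaurentSeries k)),
    A.det ≠ 0 ∧ Γ.det ≠ 0 ∧ rowU n ξ * A.map iot = Γ * (rowU n ξ).map (fun z => z ^ r)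

/-- P16: Frobenius relation for simultaneous approximation -/
def S_R2 : Prop := ∀ (k : Type u) [Field k] (p : ℕ) [Fact p.Prime] [CharP k p] (s : ℕ)
  (ξ : LaurentSeries k), HQ (p ^ s) ξ → ∀ n : ℕ,
  ∃ (A : Matrix (Fin (n + 1)) (Fin (n + 1)) k[X]) (Γ : Matrix (Fin n) (Fin n) (LaurentSeries k)),
    A.det ≠ 0 ∧ Γ.det ≠ 0 ∧ simU n ξ * A.map iot = Γ * (simU n ξ).map (fun z => z ^ p ^ s)

/-- the height (maximal degree of the coefficients) of a polynomial over `k[T]` -/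
noncomputable def Hp {k : Type u} [Field k] (P : k[X][X]) : ℕ :=
  P.support.sup fun i => (P.coeff i).natDegree

/-- P17: Liouville's inequality.  `d` = degree of a nonzero `f` with `f(ξ) = 0`, minimal -/
def S_LI : Prop := ∀ (k : Type u) [Field k] (ξ : LaurentSeries k) (f : k[X][X]), f ≠ 0 →
  ev ξ f = 0 → (∀ g : k[X][X], g ≠ 0 → ev ξ g = 0 → f.natDegree ≤ g.natDegree) →
  ∀ n : ℕ, ∃ c : ℝ, ∀ P : k[X][X], P.natDegree ≤ n → ev ξ P ≠ 0 →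
    -((f.natDegree : ℝ) - 1) * Hp P - c ≤ dg (ev ξ P)

/-- P18: Dirichlet -/
def S_DI : Prop := ∀ (k : Type u) [Field k] [Finite k] (ξ : LaurentSeries k) (n : ℕ),
  ∃ c : ℝ, ∀ h : ℕ, ∃ P : k[X][X], P ≠ 0 ∧ P.natDegree ≤ n ∧ Hp P ≤ h ∧
    DLe (ev ξ P) (-(n : ℝ) * h + c)

/-! ### the exponents -/

section

variable {k : Type u} [Field k]

/-- the absolute value of `k((1/T))`: `|z| = q ^ (deg z)`, `q = #k` -/
noncomputable def nrm (z : LaurentSeries k) : ℝ :=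
  open Classical in if z = 0 then 0 else (Nat.card k : ℝ) ^ (-z.order)

/-- height of a polynomial over `k[T]`: the maximum of the absolute values of its coefficients -/
noncomputable def polyHeight (P : k[X][X]) : ℝ := ⨆ i : ℕ, nrm (iot (P.coeff i))

/-- height of a vector over `k[T]` -/
noncomputable def vecHeight {n : ℕ} (x : Fin (n + 1) → k[X]) : ℝ := ⨆ i, nrm (iot (x i))

/-- `w_n(ξ)` -/
noncomputable def wExp (n : ℕ) (ξ : LaurentSeries k) : EReal :=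
  sSup {e : EReal | ∃ w : ℝ, e = (w : EReal) ∧ {P : k[X][X] | P.natDegree ≤ n ∧
    0 < nrm (P.eval₂ iot ξ) ∧ nrm (P.eval₂ iot ξ) ≤ polyHeight P ^ (-w)}.Infinite}

/-- `λ_n(ξ)` -/
noncomputable def lExp (n : ℕ) (ξ : LaurentSeries k) : EReal :=
  sSup {e : EReal | ∃ w : ℝ, e = (w : EReal) ∧ {x : Fin (n + 1) → k[X] |
    0 < (⨆ i : Fin n, nrm (iot (x 0) * ξ ^ ((i : ℕ) + 1) - iot (x i.succ))) ∧
    (⨆ i : Fin n, nrm (iot (x 0) * ξ ^ ((i : ℕ) + 1) - iot (x i.succ))) ≤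
      vecHeight x ^ (-w)}.Infinite}

end

/-- P20: `w_n` in terms of degrees, `n` smaller than the degree of `ξ` -/
def S_W1 : Prop := ∀ (k : Type u) [Field k] [Finite k] (ξ : LaurentSeries k) (n : ℕ), 1 ≤ n →
  (∀ x : Fin (n + 1) → k[X], x ≠ 0 → Uv (rowU n ξ) x ≠ 0) → ∀ C : ℝ,
  (∀ x : Fin (n + 1) → k[X], x ≠ 0 → -C * (hgt x + 1) ≤ vdeg (Uv (rowU n ξ) x)) →
  ∃ w : ℝ, 0 ≤ w ∧ wExp n ξ = w ∧
    (∀ w' < w, {x : Fin (n + 1) → k[X] | x ≠ 0 ∧ VLe (Uv (rowU n ξ) x) (-w' * hgt x)}.Infinite) ∧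
    (∀ w' > w, {x : Fin (n + 1) → k[X] | x ≠ 0 ∧ VLe (Uv (rowU n ξ) x) (-w' * hgt x)}.Finite)

/-- P21: `λ_n` in terms of degrees -/
def S_L1 : Prop := ∀ (k : Type u) [Field k] [Finite k] (ξ : LaurentSeries k) (n : ℕ), 1 ≤ n →
  (∀ x : Fin (n + 1) → k[X], x ≠ 0 → Uv (simU n ξ) x ≠ 0) → ∀ C : ℝ,
  (∀ x : Fin (n + 1) → k[X], x ≠ 0 → -C * (hgt x + 1) ≤ vdeg (Uv (simU n ξ) x)) →
  ∃ w : ℝ, 0 ≤ w ∧ lExp n ξ = w ∧
    (∀ w' < w, {x : Fin (n + 1) → k[X] | x ≠ 0 ∧ VLe (Uv (simU n ξ) x) (-w' * hgt x)}.Infinite) ∧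
    (∀ w' > w, {x : Fin (n + 1) → k[X] | x ≠ 0 ∧ VLe (Uv (simU n ξ) x) (-w' * hgt x)}.Finite)

/-- P22: `w_n = d - 1` for `n ≥ d - 1` -/
def S_W2 : Prop := ∀ (k : Type u) [Field k] [Finite k] (ξ : LaurentSeries k) (f : k[X][X]), f ≠ 0 →
  ev ξ f = 0 → (∀ g : k[X][X], g ≠ 0 → ev ξ g = 0 → f.natDegree ≤ g.natDegree) →
  ∀ n : ℕ, 1 ≤ n → f.natDegree ≤ n + 1 → 2 ≤ f.natDegree →
  wExp n ξ = ((f.natDegree - 1 : ℕ) : ℝ)

end Pool.Agent.Helper20.FR
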